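import Pool.Agent.H36.NA.Ded
import Pool.Agent.H60.NA.Cor
import Pool.Agent.H64.VS.Few

/-!
# The hypotheses of the law level, from the letters

`fb_close`, `fb_few`, `fb_pair`: the natural digits `fbC` of the first coefficient. `na_use`: the
hypotheses of `Pool.NA60.na_core`.
-/

set_option autoImplicit false

namespace Pool.NA36

open Finset Real MvPolynomial
open Pool.Agent.H49.Ent Pool.Agent.H32.Dense Pool.STK Pool.KA Pool.KSAT Pool.K2S Pool.PB Pool.GEN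
open Pool.S6C Pool.RCD Pool.LA91 Pool.OWN68 Pool.CHT
open Pool.BFL (Pb)
open Pool.V0F (cR)
open Pool.CLU (cpn_law cpn_pos cpn_marg)
open Pool.NDC42 (hgC pcC x0 xn xg rP LbW)
open Pool.PB.Trl (rt rt_mem)
open Pool.AVG5 (jt jt_le jt_sub of_fl)

variable {m J : ℕ}

section

variable {F : Fam m J} {A : F.Ω → Prop} {c : ℕ → Fin m} {D : ℕ} {w : ℝ} {n : ℕ → ℝ}
  {H : LnT F → ℕ → MvPolynomial (Option (Fin m)) ℝ}

theorem opl_deg (hdeg : ∀ l ≤ 3, ∀ x, (H x l).totalDegree ≤ D) {l : ℕ} (hl : l ≤ 3) (ω : F.Ω) :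
    (opl F c w H l ω).natDegree ≤ D + 1 :=
  natDegree_dv _ (K := D) (G := fun s (_ : Fin m) => H s l) (fun s _ => hdeg l hl s) _ _

/-- A coefficient from equal codes. -/
theorem opl_cf {j₀ l : ℕ} {s : ℝ} {ω ω' : F.Ω} (h : pcC F c D w H l j₀ s ω = pcC F c D w H l j₀ s ω')
    {i : ℕ} (hi : j₀ ≤ i) (hiD : i ≤ D + 1) :
    |(opl F c w H l ω - opl F c w H l ω').coeff i| ≤ 1 / 2 ^ (s * J) := by
  have hs0 : (0 : ℝ) < 2 ^ (s * J) := Real.rpow_pos_of_pos (by norm_num) _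
  rw [Polynomial.coeff_sub]
  have h2 := congrFun h ⟨i, by omega⟩
  unfold pcC Pool.AVG71.cod at h2
  dsimp only at h2
  rw [if_pos hi, if_pos hi] at h2
  exact of_fl hs0 h2

/-- The first coefficient from the first Taylor coefficient at a time, orders `≥ 2` given. -/
theorem cf_one (hdeg : ∀ l ≤ 3, ∀ x, (H x l).totalDegree ≤ D) {ω ω' : F.Ω}
    (h : f2C F c D w n H ω = f2C F c D w n H ω') {θ : ℝ} (hθ : |θ| ≤ 1) :
    |((opl F c w H 2 ω).coeff 1 - (opl F c w H 2 ω').coeff 1) -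
      (jt (opl F c w H 2 ω) θ 1 - jt (opl F c w H 2 ω') θ 1)| ≤
      ((D : ℝ) + 2) ^ 2 * (1 / 2 ^ (n 2 * J)) := by
  have hs0 : (0 : ℝ) < 2 ^ (n 2 * J) := Real.rpow_pos_of_pos (by norm_num) _
  obtain ⟨Q, hQ⟩ : ∃ Q, Q = opl F c w H 2 ω - opl F c w H 2 ω' := ⟨_, rfl⟩
  have hQd : Q.natDegree ≤ D + 1 := by
    rw [hQ]
    exact (Polynomial.natDegree_sub_le _ _).trans
      (max_le (opl_deg hdeg (by norm_num) ω) (opl_deg hdeg (by norm_num) ω'))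
  have hQc : ∀ i, 2 ≤ i → i ≤ D + 1 → |Q.coeff i| ≤ 1 / 2 ^ (n 2 * J) := fun i h1 h2 => by
    rw [hQ]
    exact opl_cf (j₀ := 2) h h1 h2
  have e1 : (opl F c w H 2 ω).coeff 1 - (opl F c w H 2 ω').coeff 1 = Q.coeff 1 := by
    rw [hQ, Polynomial.coeff_sub]
  have e2 : jt (opl F c w H 2 ω) θ 1 - jt (opl F c w H 2 ω') θ 1 = jt Q θ 1 := by
    rw [hQ, jt_sub]
  rw [e1, e2]
  have e3 : jt Q θ 1 = ∑ i ∈ range (D + 1), ((i : ℝ) + 1) * Q.coeff (i + 1) * θ ^ i := by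
    unfold jt
    rw [Polynomial.taylor_coeff_one, Polynomial.eval_eq_sum_range' (n := D + 1)]
    · refine Finset.sum_congr rfl fun i _ => ?_
      rw [Polynomial.coeff_derivative]
      ring
    · refine lt_of_le_of_lt (Polynomial.natDegree_derivative_le Q) ?_
      omega
  rw [e3, Finset.sum_range_succ']
  have e4 : Q.coeff 1 - (∑ k ∈ range D, (((k + 1 : ℕ) : ℝ) + 1) * Q.coeff (k + 1 + 1) * θ ^ (k + 1) +
      (((0 : ℕ) : ℝ) + 1) * Q.coeff (0 + 1) * θ ^ 0) =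
      -∑ k ∈ range D, (((k + 1 : ℕ) : ℝ) + 1) * Q.coeff (k + 1 + 1) * θ ^ (k + 1) := by
    push_cast
    ring
  rw [e4, abs_neg]
  refine (Finset.abs_sum_le_sum_abs _ _).trans ?_
  have e5 : ∀ k ∈ range D, |(((k + 1 : ℕ) : ℝ) + 1) * Q.coeff (k + 1 + 1) * θ ^ (k + 1)| ≤
      ((D : ℝ) + 2) * (1 / 2 ^ (n 2 * J)) := by
    intro k hk
    have hk' := Finset.mem_range.1 hk
    rw [abs_mul, abs_mul, abs_pow]
    have a1 := hQc (k + 1 + 1) (by omega) (by omega)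
    have a2 : |θ| ^ (k + 1) ≤ 1 := pow_le_one₀ (abs_nonneg _) hθ
    have a3 : |(((k + 1 : ℕ) : ℝ) + 1)| ≤ (D : ℝ) + 2 := by
      rw [abs_of_nonneg (by positivity)]
      have : ((k + 1 : ℕ) : ℝ) ≤ D := by exact_mod_cast hk'
      linarith
    calc |(((k + 1 : ℕ) : ℝ) + 1)| * |Q.coeff (k + 1 + 1)| * |θ| ^ (k + 1)
        ≤ ((D : ℝ) + 2) * (1 / 2 ^ (n 2 * J)) * 1 := by
          refine mul_le_mul (mul_le_mul a3 a1 (abs_nonneg _) (by positivity)) a2 (by positivity)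
            (by positivity)
      _ = _ := mul_one _
  refine (Finset.sum_le_sum e5).trans ?_
  rw [Finset.sum_const, Finset.card_range, nsmul_eq_mul, ← mul_assoc]
  refine mul_le_mul_of_nonneg_right ?_ (by positivity)
  have : (0 : ℝ) ≤ D := Nat.cast_nonneg D
  nlinarith

/-- **Closeness of the natural digits** of the first coefficient. -/
theorem fb_close (hdeg : ∀ l ≤ 3, ∀ x, (H x l).totalDegree ≤ D) {ω ω' : F.Ω} {τ nτ e : ℝ}
    (hn : nτ - (τ - w) ≤ n 2) (h : f2C F c D w n H ω = f2C F c D w n H ω') {θ : ℝ} (hθ : |θ| ≤ 1)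
    (hj : |jt (opl F c w H 2 ω) θ 1 - jt (opl F c w H 2 ω') θ 1| ≤
      2 ^ (-((nτ - (τ - w) - e) * J))) :
    |((fbC F c w H τ nτ ω : ℝ)) - fbC F c w H τ nτ ω'| ≤ 2 ^ (e * J) + ((D : ℝ) + 2) ^ 2 + 1 := by
  have hJ0 : (0 : ℝ) ≤ J := Nat.cast_nonneg J
  obtain ⟨a, ha⟩ : ∃ a, a = (opl F c w H 2 ω).coeff 1 := ⟨_, rfl⟩
  obtain ⟨a', ha'⟩ : ∃ a', a' = (opl F c w H 2 ω').coeff 1 := ⟨_, rfl⟩
  have h1 := cf_one (w := w) (n := n) hdeg h hθ
  rw [← ha, ← ha'] at h1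
  have hs0 : (0 : ℝ) < 2 ^ ((nτ - (τ - w)) * J) := Real.rpow_pos_of_pos (by norm_num) _
  have h2 : |a - a'| ≤ 2 ^ (-((nτ - (τ - w) - e) * J)) + ((D : ℝ) + 2) ^ 2 * (1 / 2 ^ (n 2 * J)) := by
    rw [abs_le] at h1 hj ⊢
    constructor <;> linarith [h1.1, h1.2, hj.1, hj.2]
  have h3 : |(2 : ℝ) ^ ((nτ - (τ - w)) * J) * a - 2 ^ ((nτ - (τ - w)) * J) * a'| ≤
      2 ^ (e * J) + ((D : ℝ) + 2) ^ 2 := by
    rw [← mul_sub, abs_mul, abs_of_pos hs0]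
    refine (mul_le_mul_of_nonneg_left h2 hs0.le).trans ?_
    rw [mul_add]
    refine add_le_add (le_of_eq ?_) ?_
    · rw [← Real.rpow_add (by norm_num)]
      congr 1
      ring
    · have h4 : (2 : ℝ) ^ ((nτ - (τ - w)) * J) ≤ 2 ^ (n 2 * J) :=
        Real.rpow_le_rpow_of_exponent_le (by norm_num) (mul_le_mul_of_nonneg_right hn hJ0)
      have h5 : (0 : ℝ) < 2 ^ (n 2 * J) := Real.rpow_pos_of_pos (by norm_num) _
      calc (2 : ℝ) ^ ((nτ - (τ - w)) * J) * (((D : ℝ) + 2) ^ 2 * (1 / 2 ^ (n 2 * J)))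
          ≤ 2 ^ (n 2 * J) * (((D : ℝ) + 2) ^ 2 * (1 / 2 ^ (n 2 * J))) :=
            mul_le_mul_of_nonneg_right h4 (by positivity)
        _ = ((D : ℝ) + 2) ^ 2 := by field_simp
  unfold fbC
  rw [← ha, ← ha']
  have g1 := Int.floor_le ((2 : ℝ) ^ ((nτ - (τ - w)) * J) * a)
  have g2 := Int.lt_floor_add_one ((2 : ℝ) ^ ((nτ - (τ - w)) * J) * a)
  have g3 := Int.floor_le ((2 : ℝ) ^ ((nτ - (τ - w)) * J) * a')
  have g4 := Int.lt_floor_add_one ((2 : ℝ) ^ ((nτ - (τ - w)) * J) * a')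
  rw [abs_le] at h3 ⊢
  constructor <;> linarith [h3.1, h3.2]

/-- The natural digits of the first coefficient are few bits given the codes. -/
theorem fb_few {τ nτ : ℝ} (hn : nτ - (τ - w) ≤ n 2) {p : F.Ω → ℝ} (hp : IsLaw p)
    {Γ : Type} (Y : F.Ω → Γ) (hY : ∀ ω ω', 0 < p ω → 0 < p ω' → Y ω = Y ω' →
      f1C F c D w n H ω = f1C F c D w n H ω') :
    CH p (fbC F c w H τ nτ) Y ≤ Real.log 5 := by
  have hJ0 : (0 : ℝ) ≤ J := Nat.cast_nonneg J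
  have h1 : CH p (fbC F c w H τ nτ) Y ≤ Real.log (2 * ((1 + 1 : ℕ) : ℝ) + 1) := by
    refine CH_pair hp _ _ fun ω ω' hω hω' e => ?_
    unfold fbC
    refine floor_sub_le ?_
    have h2 := opl_cf (w := w) (l := 2) (j₀ := 1) (D := D) (i := 1) (hY ω ω' hω hω' e) le_rfl (by omega)
    rw [Polynomial.coeff_sub] at h2
    have h4 : (2 : ℝ) ^ ((nτ - (τ - w)) * J) ≤ 2 ^ (n 2 * J) :=
      Real.rpow_le_rpow_of_exponent_le (by norm_num) (mul_le_mul_of_nonneg_right hn hJ0)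
    have h5 : (0 : ℝ) < 2 ^ (n 2 * J) := Real.rpow_pos_of_pos (by norm_num) _
    have h6 : (0 : ℝ) < 2 ^ ((nτ - (τ - w)) * J) := Real.rpow_pos_of_pos (by norm_num) _
    rw [← mul_sub, abs_mul, abs_of_pos h6]
    calc (2 : ℝ) ^ ((nτ - (τ - w)) * J) * |(opl F c w H 2 ω).coeff 1 - (opl F c w H 2 ω').coeff 1|
        ≤ 2 ^ (n 2 * J) * (1 / 2 ^ (n 2 * J)) := mul_le_mul h4 h2 (abs_nonneg _) h5.le
      _ = 1 := by field_simp
      _ ≤ ((1 : ℕ) : ℝ) := by norm_num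
  refine h1.trans (le_of_eq ?_)
  norm_num

/-- The size of the natural digits of the first coefficient. -/
theorem fb_size {τ nτ : ℝ} (hc : Pool.AJW.CfB F ⌊w * J⌋₊ 1 (c 2) A (fun x => x) (fun x => H x 2))
    {ω : F.Ω} (hω : A ω) : |(fbC F c w H τ nτ ω : ℝ)| ≤ 2 ^ ((nτ - (τ - w) + 1) * J) + 1 := by
  have h1 := hc ω hω 1
  have h6 : (0 : ℝ) < 2 ^ ((nτ - (τ - w)) * J) := Real.rpow_pos_of_pos (by norm_num) _
  have h2 : |(2 : ℝ) ^ ((nτ - (τ - w)) * J) * (opl F c w H 2 ω).coeff 1| ≤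
      2 ^ ((nτ - (τ - w) + 1) * J) := by
    rw [abs_mul, abs_of_pos h6]
    refine (mul_le_mul_of_nonneg_left h1 h6.le).trans (le_of_eq ?_)
    rw [← Real.rpow_add (by norm_num)]
    congr 1
    ring
  unfold fbC
  have g1 := Int.floor_le ((2 : ℝ) ^ ((nτ - (τ - w)) * J) * (opl F c w H 2 ω).coeff 1)
  have g2 := Int.lt_floor_add_one ((2 : ℝ) ^ ((nτ - (τ - w)) * J) * (opl F c w H 2 ω).coeff 1)
  rw [abs_le] at h2 ⊢
  constructor <;> linarith [h2.1, h2.2]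

/-- **The natural digits of one line of a pair** given those of the other one. -/
theorem fb_pair (hdeg : ∀ l ≤ 3, ∀ x, (H x l).totalDegree ≤ D)
    (hc : Pool.AJW.CfB F ⌊w * J⌋₊ 1 (c 2) A (fun x => x) (fun x => H x 2)) (hA : 0 < Pe F.p A)
    {t τ nt nτ s₀ β δ e : ℝ} (hn : nτ - (τ - w) ≤ n 2)
    (hT : NaT F A c D w t τ n nt nτ s₀ β δ e H) {R : Type} (r : F.Ω → R)
    (hr : ∀ ω ω', A ω → A ω' → r ω = r ω' → rG F A c D w t τ n nt H ω = rG F A c D w t τ n nt H ω' ∧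
      f2C F c D w n H ω = f2C F c D w n H ω') :
    CH (Pool.K2S.cpn (Pool.Agent.H49.Ent.cond F.p A True) r 1) (fun v => fbC F c w H τ nτ (v 1))
      (fun v => fbC F c w H τ nτ (v 0)) ≤ Real.log 2 +
        2 * δ * Real.log (2 * (2 * (2 ^ ((nτ - (τ - w) + 1) * J) + 1)) + 1) +
        Real.log (2 * (2 * (2 ^ (e * J) + ((D : ℝ) + 2) ^ 2 + 1)) + 1) := by
  classical
  obtain ⟨p, hp⟩ : ∃ p, p = Pool.Agent.H49.Ent.cond F.p A True := ⟨_, rfl⟩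
  have hpl : IsLaw p := by rw [hp]; exact isLaw_cond F.isLaw hA
  have hsup : ∀ ω, 0 < p ω → A ω := fun ω hω => by
    rw [hp] at hω
    exact of_cond_pos hω
  obtain ⟨gd, hg1, hg2⟩ := hT.cl
  rw [← hp] at hg1 ⊢
  have hq := cpn_law hpl r 1
  have hpos := cpn_pos hpl.nonneg r 1
  obtain ⟨B, hB⟩ : ∃ B : ℝ, B = 2 ^ ((nτ - (τ - w) + 1) * J) + 1 := ⟨_, rfl⟩
  obtain ⟨E, hE⟩ : ∃ E : ℝ, E = 2 ^ (e * J) + ((D : ℝ) + 2) ^ 2 + 1 := ⟨_, rfl⟩
  have hB0 : 0 ≤ B := by rw [hB]; positivity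
  have hE0 : 0 ≤ E := by rw [hE]; positivity
  have hδ : 0 ≤ δ := le_trans (Finset.sum_nonneg fun ω _ => by
    split_ifs
    · exact hpl.nonneg ω
    · exact le_rfl) hg1
  rw [← hB, ← hE]
  have h1 := Pool.VS64.CH_near_off hq (fun v : Fin (1 + 1) → F.Ω => fbC F c w H τ nτ (v 1))
    (fun v => fbC F c w H τ nτ (v 0)) (fun v => ¬ gd (v 0) ∨ ¬ gd (v 1)) (B := B) (D := 2 * E)
    (fun v hv => by
      rw [hB]
      exact fb_size hc (hsup _ ((hpos v hv).1 1)))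
    (fun v v' hv hv' hb hb' ee => by
      push Not at hb hb'
      have k1 : ∀ u : Fin (1 + 1) → F.Ω, 0 < Pool.K2S.cpn p r 1 u → gd (u 0) → gd (u 1) →
          |(fbC F c w H τ nτ (u 0) : ℝ) - fbC F c w H τ nτ (u 1)| ≤ E := fun u hu g0 g1 => by
        have a0 := hsup _ ((hpos u hu).1 0)
        have a1 := hsup _ ((hpos u hu).1 1)
        obtain ⟨r1, r2⟩ := hr _ _ a0 a1 ((hpos u hu).2 1).symm
        rw [hE]
        refine fb_close hdeg hn r2 (θ := rt F ⌊w * J⌋₊ (u 0)) ?_ ?_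
        · have := rt_mem F ⌊w * J⌋₊ (u 0)
          rw [abs_le]
          constructor <;> linarith [this.1, this.2]
        · have h3 := hg2 _ _ a0 a1 g0 g1 r1 1
          rw [Nat.cast_one, one_mul] at h3
          exact h3
      have k2 := k1 v hv hb.1 hb.2
      have k3 := k1 v' hv' hb'.1 hb'.2
      have ee' : (fbC F c w H τ nτ (v 0) : ℝ) = fbC F c w H τ nτ (v' 0) := by exact_mod_cast ee
      rw [abs_le] at k2 k3 ⊢
      constructor <;> linarith [k2.1, k2.2, k3.1, k3.2])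
  have h2 : Pb (Pool.K2S.cpn p r 1) (fun v => ¬ gd (v 0) ∨ ¬ gd (v 1)) ≤ 2 * δ := by
    have m0 := Pool.MIC.Marg.Pb_eq (cpn_marg hpl.nonneg r 1 0) (fun ω => ¬ gd ω)
    have m1 := Pool.MIC.Marg.Pb_eq (cpn_marg hpl.nonneg r 1 1) (fun ω => ¬ gd ω)
    have h3 : Pb (Pool.K2S.cpn p r 1) (fun v => ¬ gd (v 0) ∨ ¬ gd (v 1)) ≤
        Pb (Pool.K2S.cpn p r 1) (fun v => ¬ gd (v 0)) +
        Pb (Pool.K2S.cpn p r 1) (fun v => ¬ gd (v 1)) := by
      unfold Pb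
      rw [← Finset.sum_add_distrib]
      refine Finset.sum_le_sum fun v _ => ?_
      have hv := hq.nonneg v
      by_cases c0 : gd (v 0) <;> by_cases c1 : gd (v 1) <;> simp [c0, c1, hv]
    rw [m0, m1] at h3
    linarith
  have h4 : 0 ≤ Real.log (2 * (2 * B) + 1) := Real.log_nonneg (by linarith)
  have h5 : 0 ≤ Real.log (2 * (2 * E) + 1) := Real.log_nonneg (by linarith)
  have h6 := mul_le_mul_of_nonneg_right h2 h4
  have h7 : Pb (Pool.K2S.cpn p r 1) (fun v => ¬ (¬ gd (v 0) ∨ ¬ gd (v 1))) *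
      Real.log (2 * (2 * E) + 1) ≤ 1 * Real.log (2 * (2 * E) + 1) :=
    mul_le_mul_of_nonneg_right (Pool.VS64.Pb_one_le hq _) h5
  linarith

end

end Pool.NA36
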