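import Pool.Agent.H36.NA.Lit
import Pool.Agent.H42.NDC.Det
import Pool.Agent.H72.ONE1.Fcl

/-!
# The letters which need no dynamics

`na_hv`, `na_hn`, `na_ht`: heights from codes and the time. `na_xu`: codes from the height, the orders
`≥ 1` and the time. `na_xx`: the count. `na_tm`: the time.
-/

set_option autoImplicit false

namespace Pool.NA36

open Finset Real MvPolynomial
open Pool.Agent.H49.Ent Pool.Agent.H32.Dense Pool.STK Pool.KA Pool.KSAT Pool.K2S Pool.PB Pool.GEN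
open Pool.S6C Pool.RCD Pool.LA91 Pool.OWN68 Pool.CHT
open Pool.BFL (Pb)
open Pool.V0F (cR)
open Pool.NDC42 (hgC pcC x0 xn xg rP LbW jtC jtC_zero cD cD_nonneg cJ cJ_nonneg jt_of_pc pc_of_jt pc_cnt)
open Pool.PB.Trl (rt)
open Pool.AVG5 (jt)

variable {m J : ℕ}

/-- The degree of the labels. -/
theorem lbw_deg {F : Fam m J} {A : F.Ω → Prop} {c : ℕ → Fin m} {D : ℕ} {w e : ℝ} {s : ℕ → ℝ}
    {H : LnT F → ℕ → MvPolynomial (Option (Fin m)) ℝ} (h : LbW F A c D w e s H) {l : ℕ} (hl : l ≤ 3)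
    (x : LnT F) : (H x l).totalDegree ≤ D := by
  obtain ⟨⟨V, z, z', G, h1, h2⟩, -⟩ := h l hl
  rw [← h2]
  exact h1.deg _

/-- Closed functions are determined by the canonical record. -/
theorem dcR {F : Fam m J} {A : F.Ω → Prop} {w : ℝ} {V : Type} {z : F.Ω → V}
    (hz : Cl2 (ptr F J) (vg w J F) A z) (p : F.Ω → ℝ) : Det p (cR F A w) z := by
  intro ω ν hω hν e
  have h1 := congrFun e ⟨fun ν' => z ν' = z ω, hz.comp fun v => v = z ω⟩
  have h2 : (z ω = z ω) = (z ν = z ω) := h1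
  exact (h2.mp rfl).symm

/-- The exact side information is closed. -/
theorem cl2_Z {F : Fam m J} (A : F.Ω → Prop) (w : ℝ) : Cl2 (ptr F J) (vg w J F) A F.Z := by
  refine ⟨⟨fun x => x.2.2, fun ω _ => rfl⟩, ⟨fun x => x.2.1, fun ω _ => rfl⟩⟩

section

variable {F : Fam m J} {A : F.Ω → Prop} {c : ℕ → Fin m} {D : ℕ} {w : ℝ} {n : ℕ → ℝ}
  {H : LnT F → ℕ → MvPolynomial (Option (Fin m)) ℝ}

/-- The heights of `c 0, c 1` from the codes and the time. -/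
theorem na_hv (hw0 : 0 ≤ w) (hw1 : w ≤ 1) (hdeg : ∀ l ≤ 3, ∀ x, (H x l).totalDegree ≤ D)
    (hA : 0 < Pe F.p A) {Γ : Type} (Y : F.Ω → Γ)
    (hY : ∀ ω ω', A ω → A ω' → Y ω = Y ω' → F.T ω = F.T ω' ∧ vpC F c D w n H ω = vpC F c D w n H ω') :
    CH (Pool.Agent.H49.Ent.cond F.p A True) (fun ω => fun l : Fin 2 => hgC F c w H l (n l) ω) Y ≤
      2 * cJ D 0 := by
  have hcl := isLaw_cond F.isLaw hA
  refine (CH_pis hcl.nonneg _ Y).trans ?_
  have h1 : ∀ l : Fin 2, CH (Pool.Agent.H49.Ent.cond F.p A True)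
      (fun ω => hgC F c w H l (n l) ω) Y ≤ cJ D 0 := fun l => by
    have h2 := jt_of_pc (F := F) (c := c) (D := D) (H := H) (l := (l : ℕ)) (j₀ := 0) (j := 0) hw0 hw1
      (le_refl (n l)) (hdeg l (by omega)) le_rfl hcl Y fun ω ω' hω hω' e => by
        obtain ⟨a1, a2⟩ := hY ω ω' (of_cond_pos hω) (of_cond_pos hω') e
        exact ⟨a1, congrFun a2 l⟩
    rw [jtC_zero] at h2
    exact h2
  refine (Finset.sum_le_sum fun l _ => h1 l).trans (le_of_eq ?_)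
  rw [Finset.sum_const, Finset.card_univ, Fintype.card_fin, nsmul_eq_mul]
  norm_num

/-- The height of `c 2` from the codes and the time. -/
theorem na_hn (hw0 : 0 ≤ w) (hw1 : w ≤ 1) (hdeg : ∀ l ≤ 3, ∀ x, (H x l).totalDegree ≤ D)
    (hA : 0 < Pe F.p A) {s s' : ℝ} (hs : s' ≤ s) {Γ : Type} (Y : F.Ω → Γ)
    (hY : ∀ ω ω', A ω → A ω' → Y ω = Y ω' → F.T ω = F.T ω' ∧
      pcC F c D w H 2 0 s ω = pcC F c D w H 2 0 s ω') :
    CH (Pool.Agent.H49.Ent.cond F.p A True) (hgC F c w H 2 s') Y ≤ cJ D 0 := by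
  have hcl := isLaw_cond F.isLaw hA
  have h2 := jt_of_pc (F := F) (c := c) (D := D) (H := H) (l := 2) (j₀ := 0) (j := 0) hw0 hw1
    hs (hdeg 2 (by norm_num)) le_rfl hcl Y fun ω ω' hω hω' e =>
      hY ω ω' (of_cond_pos hω) (of_cond_pos hω') e
  rw [jtC_zero] at h2
  exact h2

/-- **The codes from the height**, the orders `≥ 1` and the time. -/
theorem na_pu (hw0 : 0 ≤ w) (hw1 : w ≤ 1) (hdeg : ∀ l ≤ 3, ∀ x, (H x l).totalDegree ≤ D)
    (hA : 0 < Pe F.p A) {s : ℝ} (hs : s ≤ n 2) {Γ : Type} (Y : F.Ω → Γ)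
    (hY : ∀ ω ω', A ω → A ω' → Y ω = Y ω' → F.T ω = F.T ω' ∧ hgC F c w H 2 s ω = hgC F c w H 2 s ω' ∧
      f1C F c D w n H ω = f1C F c D w n H ω') :
    CH (Pool.Agent.H49.Ent.cond F.p A True) (pcC F c D w H 2 0 s) Y ≤
      (∑ j ∈ range (D + 2), cJ D j) + cD D := by
  have hcl := isLaw_cond F.isLaw hA
  refine pc_of_jt hw0 hw1 (hdeg 2 (by norm_num)) hcl Y (fun ω ω' hω hω' e =>
    (hY ω ω' (of_cond_pos hω) (of_cond_pos hω') e).1) (g := fun j => cJ D j) (fun j _ _ => ?_)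
    fun j => cJ_nonneg D j
  rcases Nat.eq_zero_or_pos j with rfl | hj
  · rw [jtC_zero]
    refine le_trans (le_of_eq (CH_eq_zero hcl.nonneg fun ω ω' hω hω' e => ?_)) (cJ_nonneg D 0)
    exact (hY ω ω' (of_cond_pos hω) (of_cond_pos hω') e).2.1
  · exact jt_of_pc hw0 hw1 hs (hdeg 2 (by norm_num)) hj hcl Y fun ω ω' hω hω' e => by
      obtain ⟨a1, -, a2⟩ := hY ω ω' (of_cond_pos hω) (of_cond_pos hω') e
      exact ⟨a1, a2⟩

/-- The near data with the constant to `s` digits, from the height, the orders `≥ 1`, the time. -/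
theorem na_xu (hw0 : 0 ≤ w) (hw1 : w ≤ 1) (hdeg : ∀ l ≤ 3, ∀ x, (H x l).totalDegree ≤ D)
    (hA : 0 < Pe F.p A) {s : ℝ} (hs : s ≤ n 2) :
    CH (Pool.Agent.H49.Ent.cond F.p A True) (x0 F A c D w n s H)
      (fun ω => (hgC F c w H 2 s ω, (f1C F c D w n H ω, (F.T ω, (cR F A w ω, vpC F c D w n H ω))))) ≤
      (∑ j ∈ range (D + 2), cJ D j) + cD D := by
  have hcl := isLaw_cond F.isLaw hA
  have h0 := hcl.nonneg
  obtain ⟨Y, hY⟩ : ∃ Y, Y = fun ω => (hgC F c w H 2 s ω, (f1C F c D w n H ω, (F.T ω,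
    (cR F A w ω, vpC F c D w n H ω)))) := ⟨_, rfl⟩
  rw [← hY]
  have hYe : ∀ ω ω', Y ω = Y ω' → hgC F c w H 2 s ω = hgC F c w H 2 s ω' ∧
      f1C F c D w n H ω = f1C F c D w n H ω' ∧ F.T ω = F.T ω' ∧ cR F A w ω = cR F A w ω' ∧
      vpC F c D w n H ω = vpC F c D w n H ω' := fun ω ω' e => by
    rw [hY] at e
    simp only [Prod.mk.injEq] at e
    exact e
  refine le_trans (CH_mono_left h0 fun ω ω' hω hω' e => ?_) (na_pu hw0 hw1 hdeg hA hs Y
    fun ω ω' _ _ e => ⟨(hYe ω ω' e).2.2.1, (hYe ω ω' e).1, (hYe ω ω' e).2.1⟩)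
  obtain ⟨e1, e2⟩ := Prod.ext_iff.mp e
  obtain ⟨a1, a2, a3, a4, a5⟩ := hYe ω ω' e2
  have a6 : F.Z ω = F.Z ω' := dcR (cl2_Z A w) _ ω ω' hω hω' a4
  have e1 : pcC F c D w H 2 0 s ω = pcC F c D w H 2 0 s ω' := e1
  unfold x0
  unfold vpC at a5
  unfold f1C at a2
  rw [a4, a6, a2, e1]
  refine Prod.ext rfl (Prod.ext ?_ rfl)
  exact a5

/-- **The count** of the near data. -/
theorem na_xx (hA : 0 < Pe F.p A) {s e : ℝ} (hs : s ≤ n 2)
    (hg : CH (Pool.Agent.H49.Ent.cond F.p A True) (xg F A c D w n s H) (xn F A c D w n s H) ≤ e) :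
    CH (Pool.Agent.H49.Ent.cond F.p A True) (xg F A c D w n s H) (x0 F A c D w n s H) ≤
      (n 2 - s) * J * Real.log 2 + Real.log 7 + e := by
  have hcl := isLaw_cond F.isLaw hA
  have h0 := hcl.nonneg
  have h1 := CH_le_add h0 (xg F A c D w n s H) (xn F A c D w n s H) (x0 F A c D w n s H)
  have h2 : CH (Pool.Agent.H49.Ent.cond F.p A True) (xn F A c D w n s H) (x0 F A c D w n s H) ≤
      (n 2 - s) * J * Real.log 2 + Real.log 7 := by
    refine le_trans (CH_mono_left h0 (X' := pcC F c D w H 2 0 (n 2)) fun ω ω' _ _ e => ?_)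
      (pc_cnt hs hcl (x0 F A c D w n s H) fun ω ω' _ _ e => ?_)
    · obtain ⟨e1, e2⟩ := Prod.ext_iff.mp e
      exact Prod.ext e2 e1
    · have e1 := (Prod.ext_iff.mp (Prod.ext_iff.mp e).2).2
      exact Prod.ext_iff.mp e1
  have h3 : CH (Pool.Agent.H49.Ent.cond F.p A True) (xg F A c D w n s H)
      (fun ω => (xn F A c D w n s H ω, x0 F A c D w n s H ω)) ≤
      CH (Pool.Agent.H49.Ent.cond F.p A True) (xg F A c D w n s H) (xn F A c D w n s H) :=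
    CH_mono_cond h0 fun ω ω' _ _ e => (Prod.ext_iff.mp e).1
  linarith

end

/-- **The time.** -/
theorem na_tm {S : PCl m} {C₀ : ℝ} (htm : TmC S C₀) {w : ℝ} (hw0 : 0 ≤ w) (hw : w ≤ 1) {e : ℝ}
    (he : 0 < e) : Bas S (fun J F A => 0 < Pe F.p A ∧ ((1 - w) * Real.log 2 - e) * J ≤
      CH (Pool.Agent.H49.Ent.cond F.p A True) F.T (slam F ⌊w * J⌋₊)) := by
  refine (Pool.ONE72.tm_cls htm hw he).mono 0 fun J _ F A hh => ⟨hh.1, le_trans ?_ hh.2⟩
  have hl2 : 0 < Real.log 2 := Real.log_pos one_lt_two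
  have h1 : (⌊w * (J : ℝ)⌋₊ : ℝ) ≤ w * J := Nat.floor_le (mul_nonneg hw0 (Nat.cast_nonneg J))
  nlinarith

end Pool.NA36
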