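import Pool.Agent.H42.NDC.Lit
import Pool.Agent.H42.NDC.Det

/-!
# The letters of the near-alive step

The functions of one sample which the near-alive step uses, at a window `w`, over labels `H` of that
window, in the letters of `Pool.NDC42`: `x0`, `xn`, `xg`, `rP`. `vpC` the near path of `c 0, c 1`;
`f1C`, `f2C` the codes of the own path of `c 2`, orders `≥ 1`, orders `≥ 2`; `opl` the own path, `fbC`
the digits of its first coefficient which a record of `τ` determines, `jaC` digits of its Taylor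
coefficients at a time `θ`; `X0`, `rG`, `rX` the records over which lines are glued. `NaE`: the entropy
inequalities without the window `τ`, `NaT`: those with the window `τ`.
-/

set_option autoImplicit false

namespace Pool.NA36

open Finset Real MvPolynomial
open Pool.Agent.H49.Ent Pool.Agent.H32.Dense Pool.STK Pool.KA Pool.KSAT Pool.K2S Pool.PB Pool.GEN
open Pool.S6C Pool.RCD Pool.LA91 Pool.OWN68 Pool.CHT
open Pool.BFL (Pb)
open Pool.V0F (cR)
open Pool.NDC42 (hgC pcC x0 xn xg rP LbW)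
open Pool.PB.Trl (rt)
open Pool.AVG5 (jt)

variable {m J : ℕ}

/-- **The near path** of `c 0, c 1`. -/
noncomputable def vpC (F : Fam m J) (c : ℕ → Fin m) (D : ℕ) (w : ℝ) (n : ℕ → ℝ)
    (H : LnT F → ℕ → MvPolynomial (Option (Fin m)) ℝ) (ω : F.Ω) (l : Fin 2) : Fin (D + 1 + 1) → ℤ :=
  pcC F c D w H l 0 (n l) ω

/-- The codes of the own path of `c 2`, orders `≥ 1`. -/
noncomputable def f1C (F : Fam m J) (c : ℕ → Fin m) (D : ℕ) (w : ℝ) (n : ℕ → ℝ)
    (H : LnT F → ℕ → MvPolynomial (Option (Fin m)) ℝ) (ω : F.Ω) : Fin (D + 1 + 1) → ℤ :=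
  pcC F c D w H 2 1 (n 2) ω

/-- The codes of the own path of `c 2`, orders `≥ 2`. -/
noncomputable def f2C (F : Fam m J) (c : ℕ → Fin m) (D : ℕ) (w : ℝ) (n : ℕ → ℝ)
    (H : LnT F → ℕ → MvPolynomial (Option (Fin m)) ℝ) (ω : F.Ω) : Fin (D + 1 + 1) → ℤ :=
  pcC F c D w H 2 2 (n 2) ω

/-- **The own path** of `c l` over the label of the window `w`, in the relative time. -/
noncomputable def opl (F : Fam m J) (c : ℕ → Fin m) (w : ℝ)
    (H : LnT F → ℕ → MvPolynomial (Option (Fin m)) ℝ) (l : ℕ) (ω : F.Ω) : Polynomial ℝ :=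
  dv ⌊w * J⌋₊ (fun s (_ : Fin m) => H s l) (c l) (slam F ⌊w * J⌋₊ ω)

/-- The first `s J` digits of the relative time. -/
noncomputable def tcd (F : Fam m J) (w s : ℝ) (ω : F.Ω) : ℤ := ⌊(2 : ℝ) ^ (s * J) * rt F ⌊w * J⌋₊ ω⌋

/-- The time with the first `s J` digits of the relative time. -/
noncomputable def tct (F : Fam m J) (w s : ℝ) (ω : F.Ω) : ℝ := (tcd F w s ω : ℝ) / 2 ^ (s * J)

/-- **The digits of a Taylor coefficient** of the own path of `c l` at the relative time `θ`. -/
noncomputable def jaC (F : Fam m J) (c : ℕ → Fin m) (w : ℝ)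
    (H : LnT F → ℕ → MvPolynomial (Option (Fin m)) ℝ) (l : ℕ) (θ : F.Ω → ℝ) (j : ℕ) (s : ℝ)
    (ω : F.Ω) : ℤ := ⌊(2 : ℝ) ^ (s * J) * jt (opl F c w H l ω) (θ ω) j⌋

/-- **The digits of the first coefficient** of the own path of `c 2` which are natural at a window `τ`
of level `nτ`. -/
noncomputable def fbC (F : Fam m J) (c : ℕ → Fin m) (w : ℝ)
    (H : LnT F → ℕ → MvPolynomial (Option (Fin m)) ℝ) (τ nτ : ℝ) (ω : F.Ω) : ℤ :=
  ⌊(2 : ℝ) ^ ((nτ - (τ - w)) * J) * (opl F c w H 2 ω).coeff 1⌋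

/-- The digits of all Taylor coefficients of order `≥ 1` at the time `θ` which are natural at `τ`. -/
noncomputable def jbC (F : Fam m J) (c : ℕ → Fin m) (D : ℕ) (w : ℝ)
    (H : LnT F → ℕ → MvPolynomial (Option (Fin m)) ℝ) (θ : F.Ω → ℝ) (τ nτ : ℝ) (ω : F.Ω)
    (a : Fin (D + 1 + 1)) : ℤ :=
  if 1 ≤ (a : ℕ) then jaC F c w H 2 θ a (nτ - (a : ℝ) * (τ - w)) ω else 0

/-- **The base record** of the near-alive step: the record of `w`, the time, the near path of
`c 0, c 1`, the orders `≥ 2` of the own path of `c 2`, the record of `t`. -/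
noncomputable def X0 (F : Fam m J) (A : F.Ω → Prop) (c : ℕ → Fin m) (D : ℕ) (w t : ℝ) (n : ℕ → ℝ)
    (H : LnT F → ℕ → MvPolynomial (Option (Fin m)) ℝ) (ω : F.Ω) :=
  ((cR F A w ω, F.W ω), (vpC F c D w n H ω, (f2C F c D w n H ω, cR F A t ω)))

/-- **The record of a pair of lines**: the base record, the near height of `c 2`, the record of `τ`. -/
noncomputable def rX (F : Fam m J) (A : F.Ω → Prop) (c : ℕ → Fin m) (D : ℕ) (w t τ : ℝ) (n : ℕ → ℝ)
    (nt : ℝ) (H : LnT F → ℕ → MvPolynomial (Option (Fin m)) ℝ) (ω : F.Ω) :=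
  (X0 F A c D w t n H ω, ((hgC F c w H 2 nt ω, hgC F c w H 2 (n 2) ω), cR F A τ ω))

/-- The record of a general pair of lines: no orders `≥ 2` of `c 2`. -/
noncomputable def rG (F : Fam m J) (A : F.Ω → Prop) (c : ℕ → Fin m) (D : ℕ) (w t τ : ℝ) (n : ℕ → ℝ)
    (nt : ℝ) (H : LnT F → ℕ → MvPolynomial (Option (Fin m)) ℝ) (ω : F.Ω) :=
  (((cR F A w ω, F.W ω), (vpC F c D w n H ω, cR F A t ω)),
    ((hgC F c w H 2 nt ω, hgC F c w H 2 (n 2) ω), cR F A τ ω))

/-- **The letters of the near-alive step without the window** `τ`: as `NdE`, but `fr` only for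
`c 0, c 1`. -/
structure NaE (F : Fam m J) (A : F.Ω → Prop) (c : ℕ → Fin m) (D : ℕ) (w x' : ℝ) (n : ℕ → ℝ)
    (e : ℝ) (H : LnT F → ℕ → MvPolynomial (Option (Fin m)) ℝ) : Prop where
  /-- the near velocity of `c 0, c 1` is free given the near point, and it determines the near path. -/
  fr : ∃ (Y : Type) (ud : F.Ω → Y),
    CH (Pool.Agent.H49.Ent.cond F.p A True) ud (fun ω => (cR F A w ω, F.W ω)) ≤
      CH (Pool.Agent.H49.Ent.cond F.p A True) ud (rP F A c w x' n H) + e * J ∧
    CH (Pool.Agent.H49.Ent.cond F.p A True) (vpC F c D w n H) (fun ω => ((cR F A w ω, F.W ω),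
      ((fun l : Fin 2 => hgC F c w H l (n l) ω), ud ω))) ≤ e * J
  /-- the near position is few given the later record. -/
  hx : CH (Pool.Agent.H49.Ent.cond F.p A True)
    (fun ω => ((fun l : Fin 2 => hgC F c w H l (n l) ω), hgC F c w H 2 (n 2) ω))
    (fun ω => (cR F A x' ω, F.W ω)) ≤ e * J
  /-- the near position from the near path and the time. -/
  hv : CH (Pool.Agent.H49.Ent.cond F.p A True) (fun ω => fun l : Fin 2 => hgC F c w H l (n l) ω)
    (fun ω => (F.T ω, (cR F A w ω, vpC F c D w n H ω))) ≤ e * J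
  hn : ∀ nt, nt ≤ n 2 → CH (Pool.Agent.H49.Ent.cond F.p A True) (hgC F c w H 2 nt)
    (fun ω => (F.T ω, xn F A c D w n nt H ω)) ≤ e * J
  /-- the near data of `c 3`. -/
  gg : ∀ nt, nt ≤ n 2 → CH (Pool.Agent.H49.Ent.cond F.p A True) (xg F A c D w n nt H)
    (xn F A c D w n nt H) ≤ e * J
  /-- the time is full given the line, every number of digits. -/
  tm : ((1 - w) * Real.log 2 - e) * J ≤
    CH (Pool.Agent.H49.Ent.cond F.p A True) F.T (slam F ⌊w * J⌋₊)

/-- **The letters of the near-alive step at the window** `τ` of level `nτ`; `t` is the window of the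
base record, `nt` its level, `s₀` digits of the time, `β` the alive digits, `δ` a mass. -/
structure NaT (F : Fam m J) (A : F.Ω → Prop) (c : ℕ → Fin m) (D : ℕ) (w t τ : ℝ) (n : ℕ → ℝ)
    (nt nτ s₀ β δ e : ℝ) (H : LnT F → ℕ → MvPolynomial (Option (Fin m)) ℝ) : Prop where
  /-- the height to the level of `τ` is few given the record of `τ`. -/
  hc : CH (Pool.Agent.H49.Ent.cond F.p A True) (hgC F c w H 2 nτ)
    (fun ω => (cR F A τ ω, F.W ω)) ≤ e * J
  /-- ... and given the time and the near data with the constant to the level of `τ`. -/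
  ht : CH (Pool.Agent.H49.Ent.cond F.p A True)
    (fun ω => ((fun l : Fin 2 => hgC F c w H l (n l) ω), hgC F c w H 2 nτ ω))
    (fun ω => (F.T ω, x0 F A c D w n nτ H ω)) ≤ e * J
  /-- the near data from the height to the level of `τ`, the near path and the time. -/
  xu : CH (Pool.Agent.H49.Ent.cond F.p A True) (x0 F A c D w n nτ H)
    (fun ω => (hgC F c w H 2 nτ ω, (f1C F c D w n H ω, (F.T ω, (cR F A w ω, vpC F c D w n H ω))))) ≤
      e * J
  /-- the count of all near data from those without the far digits of `c 2`. -/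
  xx : CH (Pool.Agent.H49.Ent.cond F.p A True) (xg F A c D w n nτ H) (x0 F A c D w n nτ H) ≤
    ((n 2 - nτ) * Real.log 2 + e) * J
  /-- **fullness**: the far digits of `c 2` are full given the record of `τ` and all near data. -/
  fu : ((n 2 - nτ) * Real.log 2 - e) * J ≤ CH (Pool.Agent.H49.Ent.cond F.p A True)
    (hgC F c w H 2 (n 2)) (fun ω => ((cR F A τ ω, F.W ω), x0 F A c D w n nτ H ω))
  /-- **the first order is free of the height**, orders `≥ 2` given. -/
  f1 : CH (Pool.Agent.H49.Ent.cond F.p A True) (f1C F c D w n H) (X0 F A c D w τ n H) ≤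
    CH (Pool.Agent.H49.Ent.cond F.p A True) (f1C F c D w n H)
      (fun ω => ((hgC F c w H 2 nτ ω, hgC F c w H 2 (n 2) ω), X0 F A c D w τ n H ω)) + e * J
  /-- **the first order behind its natural digits is free of the record of a pair**. -/
  f2 : CH (Pool.Agent.H49.Ent.cond F.p A True) (f1C F c D w n H)
      (fun ω => ((cR F A w ω, F.Z ω), (vpC F c D w n H ω, (f2C F c D w n H ω,
        fbC F c w H τ nτ ω)))) ≤
    CH (Pool.Agent.H49.Ent.cond F.p A True) (f1C F c D w n H) (rX F A c D w t τ n nt H) + e * J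
  /-- **all orders behind their natural digits are free of the record of a general pair**. -/
  j2 : CH (Pool.Agent.H49.Ent.cond F.p A True) (f1C F c D w n H)
      (fun ω => ((cR F A w ω, F.Z ω), (vpC F c D w n H ω, (tcd F w s₀ ω,
        jbC F c D w H (tct F w s₀) τ nτ ω)))) ≤
    CH (Pool.Agent.H49.Ent.cond F.p A True) (f1C F c D w n H) (rG F A c D w t τ n nt H) + e * J
  /-- **the first order is alive** behind its natural digits, on all large parts. -/
  al : ∀ E : F.Ω → Prop, δ / 2 ≤ Pb (Pool.Agent.H49.Ent.cond F.p A True) E →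
    Real.log (6 / δ) < CH (Pool.Agent.H49.Ent.cond (Pool.Agent.H49.Ent.cond F.p A True) E True)
      (fun ω => ⌊ojet F (c 2) 1 (H (slam F ⌊w * J⌋₊ ω) 2) ω / 2 ^ (-((nτ - τ + β) * J))⌋)
      (rX F A c D w t τ n nt H)
  /-- **closeness**: over the record of a general pair the own paths agree to the natural digits, off
  a small mass. -/
  cl : ∃ gd : F.Ω → Prop, Pb (Pool.Agent.H49.Ent.cond F.p A True) (fun ω => ¬ gd ω) ≤ δ ∧
    ∀ ω ω', A ω → A ω' → gd ω → gd ω' → rG F A c D w t τ n nt H ω = rG F A c D w t τ n nt H ω' →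
      ∀ j : ℕ, |jt (opl F c w H 2 ω) (rt F ⌊w * J⌋₊ ω) j - jt (opl F c w H 2 ω') (rt F ⌊w * J⌋₊ ω) j| ≤
        2 ^ (-((nτ - (j : ℝ) * (τ - w) - e) * J))

/-- **The class statement**: for all labels of the window `w` of small accuracy, `NaE`, and `NaT` for
the windows `τ i` of levels `nτ i`. -/
def NaCls {m : ℕ} (S : PCl m) (c : ℕ → Fin m) (D : ℕ) (s : ℕ → ℝ) (w t x' : ℝ) (n : ℕ → ℝ)
    (nt s₀ β δ e : ℝ) {k : ℕ} (τ nτ : Fin k → ℝ) : Prop :=
  ∃ e₁ : ℝ, 0 < e₁ ∧ Bas S (fun _ F A =>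
    ∀ H : LnT F → ℕ → MvPolynomial (Option (Fin m)) ℝ, LbW F A c D w e₁ s H →
      NaE F A c D w x' n e H ∧ ∀ i, NaT F A c D w t (τ i) n nt (nτ i) s₀ β δ e H)

end Pool.NA36
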