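import Pool.Agent.H36.NA.Use2
import Pool.Agent.H60.NA.Tup
import Pool.Agent.H54.ND.Ent

/-!
# The entropy hypotheses of `na_full` and of `na_tup`, from the letters

`yP`: the near data of a pair of lines over one near point. `na_hy`, `na_hf`, `na_ho`; the
determinations. `na_full_at`: the own data of a line are as free given the level-free data of the
copies as given the line.
-/

set_option autoImplicit false

namespace Pool.NA36

open Finset Real MvPolynomial
open Pool.Agent.H49.Ent Pool.Agent.H32.Dense Pool.STK Pool.KA Pool.KSAT Pool.K2S Pool.PB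
open Pool.GEN hiding Det
open Pool.S6C Pool.RCD Pool.LA91 Pool.OWN68 Pool.CHT
open Pool.BFL (Pb)
open Pool.V0F (cR)
open Pool.CLU (cpn_law cpn_pos cpn_marg)
open Pool.NDC42 (hgC pcC x0 xn xg rP LbW)
open Pool.PB.Trl (rt rt_mem)
open Pool.AVG5 (jt)
open Pool.H52.TIE (CH_cpn)

variable {m J : ℕ}

/-- **The near data of a pair of lines** over one near point. -/
noncomputable def yP (F : Fam m J) (A : F.Ω → Prop) (c : ℕ → Fin m) (D : ℕ) (w t : ℝ) (n : ℕ → ℝ)
    (nt : ℝ) (H : LnT F → ℕ → MvPolynomial (Option (Fin m)) ℝ) (v : Fin 2 → F.Ω) :=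
  ((F.T (v 0), cR F A t (v 0)), fun j : Fin 2 => x0 F A c D w n nt H (v j))

section

variable {F : Fam m J} {A : F.Ω → Prop} {c : ℕ → Fin m} {D : ℕ} {w : ℝ} {n : ℕ → ℝ}
  {H : LnT F → ℕ → MvPolynomial (Option (Fin m)) ℝ}

/-- What the record of a pair determines. -/
theorem rX_det {t τ nt : ℝ} {ω ω' : F.Ω}
    (h : rX F A c D w t τ n nt H ω = rX F A c D w t τ n nt H ω') :
    X0 F A c D w t n H ω = X0 F A c D w t n H ω' ∧ hgC F c w H 2 nt ω = hgC F c w H 2 nt ω' ∧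
      hgC F c w H 2 (n 2) ω = hgC F c w H 2 (n 2) ω' ∧ cR F A τ ω = cR F A τ ω' ∧
      F.T ω = F.T ω' := by
  have h' := h
  unfold rX at h'
  simp only [Prod.mk.injEq] at h'
  obtain ⟨h1, ⟨h2, h3⟩, h4⟩ := h'
  refine ⟨h1, h2, h3, h4, ?_⟩
  unfold X0 at h1
  simp only [Prod.mk.injEq] at h1
  have h5 : F.W ω = F.W ω' := h1.1.2
  exact (Prod.ext_iff.mp h5).1

/-- **(hy)** of `na_core`. -/
theorem na_hy (hA : 0 < Pe F.p A) {t nt na a' e s₀ β δ : ℝ}
    (ht : NaT F A c D w t t n nt nt s₀ β δ e H) :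
    CH (cpn (Pool.Agent.H49.Ent.cond F.p A True) (rX F A c D w t a' n nt H) 1)
      (yP F A c D w t n nt H)
      (fun v => (hgC F c w H 2 nt (v 0), ((f1C F c D w n H (v 0), fbC F c w H a' na (v 0)),
        ((f1C F c D w n H (v 1), fbC F c w H a' na (v 1)), X0 F A c D w t n H (v 0))))) ≤
      2 * (e * J) := by
  obtain ⟨p, hp⟩ : ∃ p, p = Pool.Agent.H49.Ent.cond F.p A True := ⟨_, rfl⟩
  have hpl : IsLaw p := by rw [hp]; exact isLaw_cond F.isLaw hA
  have hxu := ht.xu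
  rw [← hp] at hxu ⊢
  obtain ⟨q, hq⟩ : ∃ q, q = cpn p (rX F A c D w t a' n nt H) 1 := ⟨_, rfl⟩
  have hql : IsLaw q := by rw [hq]; exact cpn_law hpl _ 1
  have q0 := hql.nonneg
  have hpos : ∀ v, 0 < q v → ∀ i, rX F A c D w t a' n nt H (v i) =
      rX F A c D w t a' n nt H (v 0) := fun v hv i => by
    rw [hq] at hv
    exact (cpn_pos hpl.nonneg _ 1 v hv).2 i
  obtain ⟨g, hg⟩ : ∃ g, g = fun ω => (hgC F c w H 2 nt ω, (f1C F c D w n H ω, (F.T ω,
    (cR F A w ω, vpC F c D w n H ω)))) := ⟨_, rfl⟩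
  obtain ⟨Y, hY⟩ : ∃ Y, Y = fun v : Fin (1 + 1) → F.Ω => (hgC F c w H 2 nt (v 0),
    ((f1C F c D w n H (v 0), fbC F c w H a' na (v 0)),
      ((f1C F c D w n H (v 1), fbC F c w H a' na (v 1)), X0 F A c D w t n H (v 0)))) := ⟨_, rfl⟩
  have hYe : ∀ v v', Y v = Y v' → hgC F c w H 2 nt (v 0) = hgC F c w H 2 nt (v' 0) ∧
      f1C F c D w n H (v 0) = f1C F c D w n H (v' 0) ∧
      f1C F c D w n H (v 1) = f1C F c D w n H (v' 1) ∧
      X0 F A c D w t n H (v 0) = X0 F A c D w t n H (v' 0) := fun v v' e => by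
    rw [hY] at e
    simp only [Prod.mk.injEq] at e
    exact ⟨e.1, e.2.1.1, e.2.2.1.1, e.2.2.2⟩
  have hX : ∀ ω ω', X0 F A c D w t n H ω = X0 F A c D w t n H ω' → cR F A w ω = cR F A w ω' ∧
      F.T ω = F.T ω' ∧ vpC F c D w n H ω = vpC F c D w n H ω' ∧ cR F A t ω = cR F A t ω' :=
    fun ω ω' e => by
      unfold X0 at e
      simp only [Prod.mk.injEq] at e
      obtain ⟨⟨e1, e2⟩, e3, e4, e5⟩ := e
      exact ⟨e1, (Prod.ext_iff.mp e2).1, e3, e5⟩
  rw [← hq, ← hY]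
  rw [← hg] at hxu
  have h1 := CH_chain q0 (fun v : Fin (1 + 1) → F.Ω => fun j : Fin 2 => x0 F A c D w n nt H (v j))
    (fun v => (F.T (v 0), cR F A t (v 0))) Y
  have h2 : CH q (yP F A c D w t n nt H) Y ≤ CH q (fun v : Fin (1 + 1) → F.Ω =>
      ((fun j : Fin 2 => x0 F A c D w n nt H (v j)), (F.T (v 0), cR F A t (v 0)))) Y :=
    CH_mono_left q0 fun v v' _ _ e => by
      obtain ⟨e1, e2⟩ := Prod.ext_iff.mp e
      obtain ⟨e3, e4⟩ := Prod.ext_iff.mp e1
      unfold yP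
      exact Prod.ext e4 e3
  have h3 : CH q (fun v : Fin (1 + 1) → F.Ω => (F.T (v 0), cR F A t (v 0))) Y = 0 :=
    CH_eq_zero q0 fun v v' _ _ e => by
      obtain ⟨-, -, -, e4⟩ := hYe v v' e
      obtain ⟨-, a2, -, a4⟩ := hX _ _ e4
      exact Prod.ext a2 a4
  have h4 : CH q (fun v : Fin (1 + 1) → F.Ω => fun j : Fin 2 => x0 F A c D w n nt H (v j))
      (fun v => ((F.T (v 0), cR F A t (v 0)), Y v)) ≤ 2 * (e * J) := by
    refine (CH_pis q0 _ _).trans ?_
    have h5 : ∀ j : Fin 2, CH q (fun v : Fin (1 + 1) → F.Ω => x0 F A c D w n nt H (v j))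
        (fun v => ((F.T (v 0), cR F A t (v 0)), Y v)) ≤ e * J := fun j => by
      refine le_trans ?_ hxu
      have h6 : CH q (fun v => x0 F A c D w n nt H (v j)) (fun v => g (v j)) =
          CH p (x0 F A c D w n nt H) g := by
        rw [hq]
        exact CH_cpn hpl _ 1 j _ _
      rw [← h6]
      refine CH_mono_cond q0 fun v v' hv hv' e => ?_
      obtain ⟨e1, e2, e3, e4⟩ := hYe v v' (Prod.ext_iff.mp e).2
      obtain ⟨a1, a2, a3, a4⟩ := hX _ _ e4
      rw [hg]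
      have k1 := rX_det (hpos v hv j)
      have k2 := rX_det (hpos v' hv' j)
      obtain ⟨b1, b2, b3, b4⟩ := hX _ _ k1.1
      obtain ⟨c1, c2, c3, c4⟩ := hX _ _ k2.1
      have e5 : f1C F c D w n H (v j) = f1C F c D w n H (v' j) := by
        have hj : j = 0 ∨ j = 1 := by
          have := j.2
          rcases Nat.lt_or_ge (j : ℕ) 1 with h | h
          · exact Or.inl (Fin.ext (by simpa using h))
          · exact Or.inr (Fin.ext (by simp only [Fin.val_one]; omega))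
        rcases hj with rfl | rfl
        · exact e2
        · exact e3
      refine Prod.ext (k1.2.1.trans (e1.trans k2.2.1.symm)) (Prod.ext e5 (Prod.ext
        (b2.trans (a2.trans c2.symm)) (Prod.ext (b1.trans (a1.trans c1.symm))
          (b3.trans (a3.trans c3.symm)))))
    refine (Finset.sum_le_sum fun j _ => h5 j).trans (le_of_eq ?_)
    rw [Finset.sum_const, Finset.card_univ, Fintype.card_fin, nsmul_eq_mul]
    norm_num
  linarith

/-- **(hf)** of `na_core`, for data `ell` which are few given `xg`. -/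
theorem na_hf (hA : 0 < Pe F.p A) {t τ nt e e' s₀ β δ : ℝ} {L : Type} (ell : F.Ω → L)
    (ht : NaT F A c D w t τ n nt nt s₀ β δ e H)
    (hl : CH (Pool.Agent.H49.Ent.cond F.p A True) ell (xg F A c D w n nt H) ≤ e') :
    CH (Pool.Agent.H49.Ent.cond F.p A True) ell (x0 F A c D w n nt H) ≤
      (n 2 - nt) * Real.log 2 * J + (e * J + e') := by
  have hcl := isLaw_cond F.isLaw hA
  have h1 := CH_le_add hcl.nonneg ell (xg F A c D w n nt H) (x0 F A c D w n nt H)
  have h2 := ht.xx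
  have h3 : CH (Pool.Agent.H49.Ent.cond F.p A True) ell
      (fun ω => (xg F A c D w n nt H ω, x0 F A c D w n nt H ω)) ≤
      CH (Pool.Agent.H49.Ent.cond F.p A True) ell (xg F A c D w n nt H) :=
    CH_mono_cond hcl.nonneg fun ω ω' _ _ e => (Prod.ext_iff.mp e).1
  have e1 : ((n 2 - nt) * Real.log 2 + e) * J = (n 2 - nt) * Real.log 2 * J + e * J := by ring
  linarith

/-- **(ho)** of `na_core`, for data `ell` which determine `xg`. -/
theorem na_ho (hA : 0 < Pe F.p A) {x' nt e : ℝ} {L : Type} (ell : F.Ω → L)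
    (hE : NaE F A c D w x' n e H)
    (hl : Det (Pool.Agent.H49.Ent.cond F.p A True) ell (xg F A c D w n nt H)) :
    CH (Pool.Agent.H49.Ent.cond F.p A True) (hgC F c w H 2 (n 2)) (fun ω => (ell ω, F.T ω)) ≤
      e * J := by
  have hcl := isLaw_cond F.isLaw hA
  refine le_trans (CH_mono_cond hcl.nonneg fun ω ω' hω hω' e => ?_) (hE.hn (n 2) le_rfl)
  obtain ⟨e1, e2⟩ := Prod.ext_iff.mp e
  have e3 := hl ω ω' hω hω' e1
  refine Prod.ext e2 ?_
  unfold xg xn x0 at e3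
  unfold xn x0
  simp only [Prod.mk.injEq] at e3 ⊢
  obtain ⟨⟨⟨⟨a1, a2⟩, a3, a4, a5⟩, a6⟩, a7⟩ := e3
  exact ⟨⟨⟨a1, a2⟩, a3, a4, a6⟩, a6⟩

/-- `xg` determines `x0`. -/
theorem xg_x0 {nt : ℝ} {ω ω' : F.Ω} (h : xg F A c D w n nt H ω = xg F A c D w n nt H ω') :
    x0 F A c D w n nt H ω = x0 F A c D w n nt H ω' := by
  unfold xg xn at h
  exact (Prod.ext_iff.mp (Prod.ext_iff.mp h).1).1

/-- **The own data of a line of a pair** are as free given the level-free data of the copies as given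
the line. -/
theorem na_full_at (hA : 0 < Pe F.p A) {t x' nt na a' e e' e₃ s₀ s₁ β β' δ δ' : ℝ}
    (hn : na - (a' - w) ≤ n 2) (hE : NaE F A c D w x' n e H)
    (ht : NaT F A c D w t t n nt nt s₀ β δ e H)
    (ha : NaT F A c D w t a' n nt na s₁ β' δ' e H)
    (hw : CH (Pool.Agent.H49.Ent.cond F.p A True) (cR F A w) (fun ω => (cR F A t ω, F.W ω)) ≤ e * J)
    (h3 : CH (cpn (Pool.Agent.H49.Ent.cond F.p A True) (rX F A c D w t a' n nt H) 1)
      (fun v => fbC F c w H a' na (v 1)) (fun v => fbC F c w H a' na (v 0)) ≤ e₃)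
    {L : Type} (ell : F.Ω → L) (hlx : Det (Pool.Agent.H49.Ent.cond F.p A True) ell
      (xg F A c D w n nt H))
    (hxl : CH (Pool.Agent.H49.Ent.cond F.p A True) ell (xg F A c D w n nt H) ≤ e')
    (hsl : Det (Pool.Agent.H49.Ent.cond F.p A True) (slam F ⌊w * J⌋₊) ell) (N : ℕ) (j : Fin 2)
    {D' : Type} (Dd : F.Ω → D') :
    CH (Pool.Agent.H49.Ent.cond F.p A True) Dd (slam F ⌊w * J⌋₊) -
      N * (9 * (e * J) + e' + Real.log 5 + e₃) ≤
    CH (cpn (cpn (Pool.Agent.H49.Ent.cond F.p A True) (rX F A c D w t a' n nt H) 1)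
      (yP F A c D w t n nt H) N) (fun u => Dd (u 0 j))
      (fun u => (slam F ⌊w * J⌋₊ (u 0 j), fun i => ell (u i j))) := by
  have hcl := isLaw_cond F.isLaw hA
  have k1 := Pool.NA60.na_full hcl (rX F A c D w t a' n nt H) (X0 F A c D w t n H)
    (hgC F c w H 2 nt) (hgC F c w H 2 (n 2))
    (fun ω => (f1C F c D w n H ω, fbC F c w H a' na ω)) (fbC F c w H a' na) (slam F ⌊w * J⌋₊) ell
    (x0 F A c D w n nt H) F.T (yP F A c D w t n nt H)
    (cU := (n 2 - nt) * Real.log 2 * J) (ef := e * J + e') (eo := e * J) (eU := 3 * (e * J))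
    (fun ω ω' _ _ e => (rX_det e).1) (fun ω ω' _ _ e => (rX_det e).2.1)
    (fun ω ω' _ _ e => (rX_det e).2.2.1) (fun ω ω' _ _ e => (rX_det e).2.2.2.2)
    (fun ω ω' _ _ e => (Prod.ext_iff.mp e).2)
    (fun ω ω' hω hω' e => xg_x0 (hlx ω ω' hω hω' e)) hsl (na_h1 hA hn ht) (na_h2 hA ha) h3
    (fun j v v' _ _ e => congrFun (Prod.ext_iff.mp e).2 j)
    (fun v v' _ _ e => (Prod.ext_iff.mp (Prod.ext_iff.mp e).1).1) (na_hy hA ht)
    (na_hf hA ell ht hxl) (na_ho hA ell hE hlx) (na_hU hA ht hw) N j Dd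
  have e1 : (N : ℝ) * ((e * J + e') + e * J + (3 * (e * J) + ((e * J + Real.log 5) + e * J + e₃ +
      2 * (e * J)))) = N * (9 * (e * J) + e' + Real.log 5 + e₃) := by ring
  rw [← e1]
  exact k1

end

end Pool.NA36
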