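import Pool.Agent.H42.NDC.Asm
import Pool.Agent.H36.NA.Use3

/-!
# The letters of the near-alive step, assembled

`NaP`: the letters at a window `τ < t` of level `nτ`. `ClN`: the closeness, a statement about one
event (from the geometry). `NaR`: everything of `NaE`, of `NaT` (given the closeness) at the windows
`τ i ≥ t` and of `NaP` at the windows `τ' i`. `nae_of`, `nap_of`, `nat_of`: one event. `nar_of`: the
class statement from the pieces.
-/

set_option autoImplicit false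

namespace Pool.NA36

open Finset Real MvPolynomial
open Pool.Agent.H49.Ent Pool.Agent.H32.Dense Pool.STK Pool.KA Pool.KSAT Pool.K2S Pool.PB
open Pool.GEN hiding Det
open Pool.S6C Pool.RCD Pool.LA91 Pool.OWN68 Pool.CHT
open Pool.BFL (Pb)
open Pool.V0F (cR mx_cR)
open Pool.AVG71 (cod)
open Pool.NDC42 (hgC pcC x0 xn xg rP LbW LbV cJ cJ_nonneg cD cD_nonneg cA cA_le tm_cnt ti_le BLb)
open Pool.PB.Trl (rt)
open Pool.AVG5 (jt)

variable {m J : ℕ}

/-- **Closeness** over the record of a general pair, off a small mass. -/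
def ClN (F : Fam m J) (A : F.Ω → Prop) (c : ℕ → Fin m) (D : ℕ) (w t τ : ℝ) (n : ℕ → ℝ)
    (nt nτ δ e : ℝ) (H : LnT F → ℕ → MvPolynomial (Option (Fin m)) ℝ) : Prop :=
  ∃ gd : F.Ω → Prop, Pb (Pool.Agent.H49.Ent.cond F.p A True) (fun ω => ¬ gd ω) ≤ δ ∧
    ∀ ω ω', A ω → A ω' → gd ω → gd ω' → rG F A c D w t τ n nt H ω = rG F A c D w t τ n nt H ω' →
      ∀ j : ℕ, |jt (opl F c w H 2 ω) (rt F ⌊w * J⌋₊ ω) j - jt (opl F c w H 2 ω') (rt F ⌊w * J⌋₊ ω) j| ≤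
        2 ^ (-((nτ - (j : ℝ) * (τ - w) - e) * J))

/-- **The letters of the near-alive step at a window** `τ` (also `τ < t`) of level `nτ`. -/
structure NaP (F : Fam m J) (A : F.Ω → Prop) (c : ℕ → Fin m) (D : ℕ) (w τ : ℝ) (n : ℕ → ℝ)
    (nτ e : ℝ) (H : LnT F → ℕ → MvPolynomial (Option (Fin m)) ℝ) : Prop where
  hc : CH (Pool.Agent.H49.Ent.cond F.p A True) (hgC F c w H 2 nτ)
    (fun ω => (cR F A τ ω, F.W ω)) ≤ e * J
  ht : CH (Pool.Agent.H49.Ent.cond F.p A True)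
    (fun ω => ((fun l : Fin 2 => hgC F c w H l (n l) ω), hgC F c w H 2 nτ ω))
    (fun ω => (F.T ω, x0 F A c D w n nτ H ω)) ≤ e * J
  xu : CH (Pool.Agent.H49.Ent.cond F.p A True) (x0 F A c D w n nτ H)
    (fun ω => (hgC F c w H 2 nτ ω, (f1C F c D w n H ω, (F.T ω, (cR F A w ω, vpC F c D w n H ω))))) ≤
      e * J
  xx : CH (Pool.Agent.H49.Ent.cond F.p A True) (xg F A c D w n nτ H) (x0 F A c D w n nτ H) ≤
    ((n 2 - nτ) * Real.log 2 + e) * J
  fu : ((n 2 - nτ) * Real.log 2 - e) * J ≤ CH (Pool.Agent.H49.Ent.cond F.p A True)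
    (hgC F c w H 2 (n 2)) (fun ω => ((cR F A τ ω, F.W ω), x0 F A c D w n nτ H ω))
  f1 : CH (Pool.Agent.H49.Ent.cond F.p A True) (f1C F c D w n H) (X0 F A c D w τ n H) ≤
    CH (Pool.Agent.H49.Ent.cond F.p A True) (f1C F c D w n H)
      (fun ω => ((hgC F c w H 2 nτ ω, hgC F c w H 2 (n 2) ω), X0 F A c D w τ n H ω)) + e * J

/-- The letters of order one at a window `τ ≥ t`. -/
structure NaF (F : Fam m J) (A : F.Ω → Prop) (c : ℕ → Fin m) (D : ℕ) (w t τ : ℝ) (n : ℕ → ℝ)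
    (nt nτ s₀ β δ e : ℝ) (H : LnT F → ℕ → MvPolynomial (Option (Fin m)) ℝ) : Prop where
  f2 : CH (Pool.Agent.H49.Ent.cond F.p A True) (f1C F c D w n H)
      (fun ω => ((cR F A w ω, F.Z ω), (vpC F c D w n H ω, (f2C F c D w n H ω,
        fbC F c w H τ nτ ω)))) ≤
    CH (Pool.Agent.H49.Ent.cond F.p A True) (f1C F c D w n H) (rX F A c D w t τ n nt H) + e * J
  j2 : CH (Pool.Agent.H49.Ent.cond F.p A True) (f1C F c D w n H)
      (fun ω => ((cR F A w ω, F.Z ω), (vpC F c D w n H ω, (tcd F w s₀ ω,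
        jbC F c D w H (tct F w s₀) τ nτ ω)))) ≤
    CH (Pool.Agent.H49.Ent.cond F.p A True) (f1C F c D w n H) (rG F A c D w t τ n nt H) + e * J
  al : ∀ E : F.Ω → Prop, δ / 2 ≤ Pb (Pool.Agent.H49.Ent.cond F.p A True) E →
    Real.log (6 / δ) < CH (Pool.Agent.H49.Ent.cond (Pool.Agent.H49.Ent.cond F.p A True) E True)
      (fun ω => ⌊ojet F (c 2) 1 (H (slam F ⌊w * J⌋₊ ω) 2) ω / 2 ^ (-((nτ - τ + β) * J))⌋)
      (rX F A c D w t τ n nt H)

/-- **All letters of the near-alive step** on an event, for labels `H`: `NaE`; `NaT` at the windows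
`τ i`, given the closeness; `NaP` at the windows `τ' i`. -/
def NaR (F : Fam m J) (A : F.Ω → Prop) (c : ℕ → Fin m) (D : ℕ) (w t x' : ℝ) (n : ℕ → ℝ)
    (nt s₀ β δ e : ℝ) {k k' : ℕ} (τ nτ : Fin k → ℝ) (τ' nτ' : Fin k' → ℝ)
    (H : LnT F → ℕ → MvPolynomial (Option (Fin m)) ℝ) : Prop :=
  NaE F A c D w x' n e H ∧
    (∀ i, ClN F A c D w t (τ i) n nt (nτ i) δ e H →
      NaT F A c D w t (τ i) n nt (nτ i) s₀ β δ e H) ∧
    ∀ i, NaP F A c D w (τ' i) n (nτ' i) e H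

/-- **`NaE` on an event.** -/
theorem nae_of {F : Fam m J} {A : F.Ω → Prop} {c : ℕ → Fin m} {D : ℕ} {w x' e : ℝ}
    {n : ℕ → ℝ} {H : LnT F → ℕ → MvPolynomial (Option (Fin m)) ℝ} (hA : 0 < Pe F.p A) (hw0 : 0 ≤ w)
    (hw1 : w ≤ 1) (hdeg : ∀ l ≤ 3, ∀ x, (H x l).totalDegree ≤ D)
    (hfr : ∃ (Y : Type) (ud : F.Ω → Y),
      CH (Pool.Agent.H49.Ent.cond F.p A True) ud (fun ω => (cR F A w ω, F.W ω)) ≤
        CH (Pool.Agent.H49.Ent.cond F.p A True) ud (rP F A c w x' n H) + e * J ∧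
      CH (Pool.Agent.H49.Ent.cond F.p A True) (fun ω (l : Fin 2) => pcC F c D w H l 0 (n l) ω)
        (fun ω => ((cR F A w ω, F.W ω), ((fun l : Fin 2 => hgC F c w H l (n l) ω), ud ω))) ≤ e * J)
    (hx : CH (Pool.Agent.H49.Ent.cond F.p A True)
      (fun ω => ((fun l : Fin 2 => hgC F c w H l (n l) ω), hgC F c w H 2 (n 2) ω))
      (fun ω => (cR F A x' ω, F.W ω)) ≤ e * J)
    (hg : CH (Pool.Agent.H49.Ent.cond F.p A True) (pcC F c D w H 3 1 (n 3))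
      (fun ω => (F.T ω, (cR F A w ω, fun l : Fin 3 => pcC F c D w H l 0 (n l) ω))) ≤ e * J)
    (htm : ((1 - w) * Real.log 2 - e) * J ≤
      CH (Pool.Agent.H49.Ent.cond F.p A True) F.T (slam F ⌊w * J⌋₊))
    (he : 0 ≤ e) (hJ : cA D ≤ e * J) : NaE F A c D w x' n (12 * e) H := by
  obtain ⟨g1, g2, g3, g4, g5, g6⟩ := cA_le D
  unfold cA at hJ
  have hJ0 : (0 : ℝ) ≤ J := Nat.cast_nonneg J
  have heJ : 0 ≤ e * J := mul_nonneg he hJ0
  obtain ⟨q, hq⟩ : ∃ q : F.Ω → ℝ, q = Pool.Agent.H49.Ent.cond F.p A True := ⟨_, rfl⟩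
  have hql : IsLaw q := by
    rw [hq]
    exact isLaw_cond F.isLaw hA
  have h0 := hql.nonneg
  obtain ⟨Y, ud, hf1, hf2⟩ := hfr
  have f2 : 12 * e * (J : ℝ) = 12 * (e * J) := by ring
  -- (gg)
  have hgg : ∀ nt : ℝ, CH q (xg F A c D w n nt H) (xn F A c D w n nt H) ≤ 3 * (e * J) := by
    intro nt
    have hdet : Det q (slam F ⌊w * J⌋₊) (fun ω => (pcC F c D w H 3 1 (n 3) ω,
        xn F A c D w n nt H ω)) := by
      intro ω ω' hω hω' e
      obtain ⟨⟨φ', hφ'⟩, ψ, hψ⟩ := (mx_cR (F := F) (A := A) hA w (le_refl (0 : ℝ))).1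
      rw [hq] at hω hω'
      have e1 : cR F A w ω = cR F A w ω' := by
        rw [hψ ω (of_cond_pos hω), hψ ω' (of_cond_pos hω')]
        exact congrArg ψ e
      have e2 : F.Z ω = F.Z ω' := congrArg (fun x => x.2.1) e
      have e3 : ∀ l j s, pcC F c D w H l j s ω = pcC F c D w H l j s ω' := by
        intro l j s
        unfold pcC cod
        rw [e]
      show (pcC F c D w H 3 1 (n 3) ω, xn F A c D w n nt H ω) =
        (pcC F c D w H 3 1 (n 3) ω', xn F A c D w n nt H ω')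
      unfold xn x0
      simp only [e3, e1, e2]
    have hT1 := tm_cnt (F := F) (A := A) hw1 hA
    rw [← hq] at hT1
    have hT2 : CH q F.T (xn F A c D w n nt H) ≤ CH q F.T (cR F A w) :=
      CH_mono_cond h0 fun ω ω' _ _ e => by
        unfold xn x0 at e
        simp only [Prod.mk.injEq] at e
        exact e.1.1.1
    have hX : CH q (pcC F c D w H 3 1 (n 3)) (fun ω => (F.T ω, xn F A c D w n nt H ω)) ≤ e * J := by
      rw [← hq] at hg
      refine (CH_mono_cond h0 fun ω ω' _ _ e => ?_).trans hg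
      unfold xn x0 at e
      simp only [Prod.mk.injEq] at e ⊢
      refine ⟨e.1, e.2.1.1.1, funext fun l => ?_⟩
      fin_cases l
      · exact congrFun e.2.1.2.1 0
      · exact congrFun e.2.1.2.1 1
      · exact e.2.2
    rw [← hq] at htm
    have h1 := ti_le h0 hdet (hT2.trans hT1) htm hX
    have e5 : ((1 - w) * (J : ℝ) + 1) * Real.log 2 = (1 - w) * Real.log 2 * J + Real.log 2 := by ring
    have e6 : ((1 - w) * Real.log 2 - e) * (J : ℝ) = (1 - w) * Real.log 2 * J - e * J := by ring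
    refine le_trans (CH_mono_left h0 fun ω ω' _ _ e => ?_) (show
      CH q (pcC F c D w H 3 1 (n 3)) (xn F A c D w n nt H) ≤ 3 * (e * J) by linarith)
    obtain ⟨e1, e2⟩ := Prod.ext_iff.mp e
    exact Prod.ext e2 e1
  refine ⟨⟨Y, ud, ?_, ?_⟩, ?_, ?_, fun nt hnt => ?_, fun nt _ => ?_, ?_⟩
  · rw [f2]
    linarith
  · rw [f2]
    have h1 : CH (Pool.Agent.H49.Ent.cond F.p A True) (vpC F c D w n H)
      (fun ω => ((cR F A w ω, F.W ω), ((fun l : Fin 2 => hgC F c w H l (n l) ω), ud ω))) ≤ e * J :=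
      hf2
    linarith
  · rw [f2]
    linarith
  · rw [f2]
    have k1 := na_hv hw0 hw1 hdeg hA (n := n) (fun ω => (F.T ω, (cR F A w ω, vpC F c D w n H ω)))
      fun ω ω' _ _ e => by
        simp only [Prod.mk.injEq] at e
        exact ⟨e.1, e.2.2⟩
    linarith
  · rw [f2]
    have k2 := na_hn hw0 hw1 hdeg hA (s := n 2) (s' := nt) hnt
      (fun ω => (F.T ω, xn F A c D w n nt H ω)) fun ω ω' _ _ e => by
        unfold xn at e
        simp only [Prod.mk.injEq] at e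
        exact ⟨e.1, e.2.2⟩
    linarith
  · rw [f2, ← hq]
    have := hgg nt
    linarith
  · refine le_trans (mul_le_mul_of_nonneg_right ?_ hJ0) htm
    linarith

/-- **`NaP` on an event**, from (hc), (fu), (f1) and `NaE`. -/
theorem nap_of {F : Fam m J} {A : F.Ω → Prop} {c : ℕ → Fin m} {D : ℕ} {w x' τ nτ e : ℝ}
    {n : ℕ → ℝ} {H : LnT F → ℕ → MvPolynomial (Option (Fin m)) ℝ} (hA : 0 < Pe F.p A) (hw0 : 0 ≤ w)
    (hw1 : w ≤ 1) (hdeg : ∀ l ≤ 3, ∀ x, (H x l).totalDegree ≤ D) (hnτ : nτ ≤ n 2)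
    (hE : NaE F A c D w x' n e H)
    (hc : CH (Pool.Agent.H49.Ent.cond F.p A True) (hgC F c w H 2 nτ)
      (fun ω => (cR F A τ ω, F.W ω)) ≤ e * J)
    (hfu : ((n 2 - nτ) * Real.log 2 - e) * J ≤ CH (Pool.Agent.H49.Ent.cond F.p A True)
      (hgC F c w H 2 (n 2)) (fun ω => ((cR F A τ ω, F.W ω), x0 F A c D w n nτ H ω)))
    (hf1 : CH (Pool.Agent.H49.Ent.cond F.p A True) (f1C F c D w n H) (X0 F A c D w τ n H) ≤
      CH (Pool.Agent.H49.Ent.cond F.p A True) (f1C F c D w n H)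
        (fun ω => ((hgC F c w H 2 nτ ω, hgC F c w H 2 (n 2) ω), X0 F A c D w τ n H ω)) + e * J)
    (he : 0 ≤ e) (hJ : cA D ≤ e * J) : NaP F A c D w τ n nτ (2 * e) H := by
  obtain ⟨g1, g2, g3, g4, g5, g6⟩ := cA_le D
  unfold cA at hJ
  have hJ0 : (0 : ℝ) ≤ J := Nat.cast_nonneg J
  have heJ : 0 ≤ e * J := mul_nonneg he hJ0
  obtain ⟨q, hq⟩ : ∃ q : F.Ω → ℝ, q = Pool.Agent.H49.Ent.cond F.p A True := ⟨_, rfl⟩
  have hql : IsLaw q := by
    rw [hq]
    exact isLaw_cond F.isLaw hA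
  have h0 := hql.nonneg
  have f2 : 2 * e * (J : ℝ) = 2 * (e * J) := by ring
  refine ⟨?_, ?_, ?_, ?_, ?_, ?_⟩
  · rw [f2]
    linarith
  · rw [f2, ← hq]
    have k1 := na_hv hw0 hw1 hdeg hA (n := n) (fun ω => (F.T ω, x0 F A c D w n nτ H ω))
      fun ω ω' _ _ e => by
        unfold x0 at e
        simp only [Prod.mk.injEq] at e
        exact ⟨e.1, e.2.2.1⟩
    have k2 := na_hn hw0 hw1 hdeg hA (s := nτ) (s' := nτ) le_rfl
      (fun ω => (F.T ω, x0 F A c D w n nτ H ω)) fun ω ω' _ _ e => by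
        unfold x0 at e
        simp only [Prod.mk.injEq] at e
        exact ⟨e.1, e.2.2.2.2⟩
    rw [← hq] at k1 k2
    have k3 := CH_subadd h0 (fun ω => fun l : Fin 2 => hgC F c w H l (n l) ω) (hgC F c w H 2 nτ)
      (fun ω => (F.T ω, x0 F A c D w n nτ H ω))
    linarith
  · rw [f2]
    have := na_xu hw0 hw1 hdeg hA (n := n) (c := c) (s := nτ) hnτ
    linarith
  · have hxx := na_xx (F := F) (A := A) (c := c) (D := D) (w := w) (n := n) (H := H) hA (s := nτ)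
      (e := e * J) hnτ (hE.gg nτ hnτ)
    refine hxx.trans ?_
    have : ((n 2 - nτ) * Real.log 2 + 2 * e) * (J : ℝ) =
        (n 2 - nτ) * J * Real.log 2 + 2 * (e * J) := by ring
    rw [this]
    linarith
  · refine le_trans (mul_le_mul_of_nonneg_right ?_ hJ0) hfu
    linarith
  · rw [f2]
    linarith

theorem NaE.mono {F : Fam m J} {A : F.Ω → Prop} {c : ℕ → Fin m} {D : ℕ} {w x' e e' : ℝ}
    {n : ℕ → ℝ} {H : LnT F → ℕ → MvPolynomial (Option (Fin m)) ℝ} (h : NaE F A c D w x' n e H)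
    (he : e ≤ e') : NaE F A c D w x' n e' H := by
  have hJ0 : (0 : ℝ) ≤ J := Nat.cast_nonneg J
  have h1 : e * J ≤ e' * J := mul_le_mul_of_nonneg_right he hJ0
  obtain ⟨Y, ud, a1, a2⟩ := h.fr
  exact ⟨⟨Y, ud, by linarith, by linarith⟩, by linarith [h.hx], by linarith [h.hv],
    fun nt hnt => (h.hn nt hnt).trans h1, fun nt hnt => (h.gg nt hnt).trans h1,
    le_trans (mul_le_mul_of_nonneg_right (by linarith) hJ0) h.tm⟩

theorem NaP.mono {F : Fam m J} {A : F.Ω → Prop} {c : ℕ → Fin m} {D : ℕ} {w τ nτ e e' : ℝ}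
    {n : ℕ → ℝ} {H : LnT F → ℕ → MvPolynomial (Option (Fin m)) ℝ} (h : NaP F A c D w τ n nτ e H)
    (he : e ≤ e') : NaP F A c D w τ n nτ e' H := by
  have hJ0 : (0 : ℝ) ≤ J := Nat.cast_nonneg J
  have h1 : e * J ≤ e' * J := mul_le_mul_of_nonneg_right he hJ0
  exact ⟨by linarith [h.hc], by linarith [h.ht], by linarith [h.xu],
    h.xx.trans (mul_le_mul_of_nonneg_right (by linarith) hJ0),
    le_trans (mul_le_mul_of_nonneg_right (by linarith) hJ0) h.fu, by linarith [h.f1]⟩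

theorem NaF.mono {F : Fam m J} {A : F.Ω → Prop} {c : ℕ → Fin m} {D : ℕ}
    {w t τ nt nτ s₀ β δ e e' : ℝ} {n : ℕ → ℝ}
    {H : LnT F → ℕ → MvPolynomial (Option (Fin m)) ℝ} (h : NaF F A c D w t τ n nt nτ s₀ β δ e H)
    (he : e ≤ e') : NaF F A c D w t τ n nt nτ s₀ β δ e' H := by
  have hJ0 : (0 : ℝ) ≤ J := Nat.cast_nonneg J
  have h1 : e * J ≤ e' * J := mul_le_mul_of_nonneg_right he hJ0
  exact ⟨by linarith [h.f2], by linarith [h.j2], h.al⟩

/-- **`NaT` on an event.** -/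
theorem nat_of {F : Fam m J} {A : F.Ω → Prop} {c : ℕ → Fin m} {D : ℕ}
    {w t τ nt nτ s₀ β δ e : ℝ} {n : ℕ → ℝ}
    {H : LnT F → ℕ → MvPolynomial (Option (Fin m)) ℝ} (h : NaP F A c D w τ n nτ e H)
    (h' : NaF F A c D w t τ n nt nτ s₀ β δ e H) (hc : ClN F A c D w t τ n nt nτ δ e H) :
    NaT F A c D w t τ n nt nτ s₀ β δ e H :=
  ⟨h.hc, h.ht, h.xu, h.xx, h.fu, h.f1, h'.f2, h'.j2, h'.al, hc⟩

/-- The three entropies of a window which are needed for `NaP`: (hc), (fu), (f1). -/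
def NaP₀ (F : Fam m J) (A : F.Ω → Prop) (c : ℕ → Fin m) (D : ℕ) (w τ : ℝ) (n : ℕ → ℝ)
    (nτ e : ℝ) (H : LnT F → ℕ → MvPolynomial (Option (Fin m)) ℝ) : Prop :=
  CH (Pool.Agent.H49.Ent.cond F.p A True) (hgC F c w H 2 nτ) (fun ω => (cR F A τ ω, F.W ω)) ≤
    e * J ∧
  ((n 2 - nτ) * Real.log 2 - e) * J ≤ CH (Pool.Agent.H49.Ent.cond F.p A True)
    (hgC F c w H 2 (n 2)) (fun ω => ((cR F A τ ω, F.W ω), x0 F A c D w n nτ H ω)) ∧
  CH (Pool.Agent.H49.Ent.cond F.p A True) (f1C F c D w n H) (X0 F A c D w τ n H) ≤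
    CH (Pool.Agent.H49.Ent.cond F.p A True) (f1C F c D w n H)
      (fun ω => ((hgC F c w H 2 nτ ω, hgC F c w H 2 (n 2) ω), X0 F A c D w τ n H ω)) + e * J

/-- Finitely many statements about all labels. -/
theorem blb_fin {S : PCl m} {c : ℕ → Fin m} {r D : ℕ} {w : ℝ} {s : ℕ → ℝ} {k : ℕ}
    {Φ : Fin k → ∀ (J : ℕ) (F : Fam m J), (F.Ω → Prop) →
      (LnT F → ℕ → MvPolynomial (Option (Fin m)) ℝ) → Prop} (h : ∀ i, BLb S c r D w s (Φ i)) :
    BLb S c r D w s (fun J F A H => ∀ i, Φ i J F A H) := by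
  choose e he hb using h
  have h1 : ∃ e₀ : ℝ, 0 < e₀ ∧ ∀ i, e₀ ≤ e i := by
    rcases k with _ | k
    · exact ⟨1, one_pos, fun i => i.elim0⟩
    · obtain ⟨i, -, hi⟩ := Finset.exists_min_image (Finset.univ : Finset (Fin (k + 1))) e
        Finset.univ_nonempty
      exact ⟨e i, he i, fun j => hi j (Finset.mem_univ j)⟩
  obtain ⟨e₀, he₀, hle⟩ := h1
  refine ⟨e₀, he₀, Bas.mono 0 (Bas.fin' hb) ?_⟩
  intro J _ F A h2 H hH i
  exact h2 i H (hH.mono le_rfl le_rfl (hle i))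

/-- **The class statement from the pieces.** -/
theorem nar_of {S : PCl m} {C₀ : ℝ} (htm : TmC S C₀) {c : ℕ → Fin m} {D : ℕ}
    {w t x' nt s₀ β δ e : ℝ} {n s : ℕ → ℝ} {k k' : ℕ} {τ nτ : Fin k → ℝ} {τ' nτ' : Fin k' → ℝ}
    (hw0 : 0 ≤ w) (hw1 : w ≤ 1) (he : 0 < e) (hn : ∀ i, nτ i ≤ n 2) (hn' : ∀ i, nτ' i ≤ n 2)
    (hfr : BLb S c 2 D w s (fun J F A H => ∃ (Y : Type) (ud : F.Ω → Y),
      CH (Pool.Agent.H49.Ent.cond F.p A True) ud (fun ω => (cR F A w ω, F.W ω)) ≤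
        CH (Pool.Agent.H49.Ent.cond F.p A True) ud (rP F A c w x' n H) + e * J ∧
      CH (Pool.Agent.H49.Ent.cond F.p A True) (fun ω (l : Fin 2) => pcC F c D w H l 0 (n l) ω)
        (fun ω => ((cR F A w ω, F.W ω), ((fun l : Fin 2 => hgC F c w H l (n l) ω), ud ω))) ≤ e * J))
    (hx : BLb S c 2 D w s (fun J F A H => CH (Pool.Agent.H49.Ent.cond F.p A True)
      (fun ω => ((fun l : Fin 2 => hgC F c w H l (n l) ω), hgC F c w H 2 (n 2) ω))
      (fun ω => (cR F A x' ω, F.W ω)) ≤ e * J))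
    (hg : BLb S c 3 D w s (fun J F A H => CH (Pool.Agent.H49.Ent.cond F.p A True)
      (pcC F c D w H 3 1 (n 3))
      (fun ω => (F.T ω, (cR F A w ω, fun l : Fin 3 => pcC F c D w H l 0 (n l) ω))) ≤ e * J))
    (hP : ∀ i, BLb S c 2 D w s (fun _ F A H => NaP₀ F A c D w (τ i) n (nτ i) e H))
    (hP' : ∀ i, BLb S c 2 D w s (fun _ F A H => NaP₀ F A c D w (τ' i) n (nτ' i) e H))
    (hF : ∀ i, BLb S c 2 D w s (fun _ F A H => NaF F A c D w t (τ i) n nt (nτ i) s₀ β δ e H)) :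
    BLb S c 3 D w s (fun _ F A H =>
      NaR F A c D w t x' n nt s₀ β δ (24 * e) τ nτ τ' nτ' H) := by
  obtain ⟨e₁, he₁, h1⟩ := (((hfr.and hx).and (((blb_fin hP).and (blb_fin hP')).and
    (blb_fin hF))).up (r' := 3) (by norm_num)).and
    (hg.and (BLb.of (Pool.NA36.na_tm htm hw0 hw1 he)))
  obtain ⟨J₁, hJ₁⟩ := exists_nat_ge (cA D / e)
  refine ⟨e₁, he₁, Bas.mono J₁ h1 ?_⟩
  rintro J hJ F A h2 H hH
  obtain ⟨⟨⟨b1, b2⟩, ⟨b3, b4⟩, b5⟩, b6, hA, b7⟩ := h2 H hH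
  have hJ1 : (J₁ : ℝ) ≤ J := by exact_mod_cast hJ
  have hJ0 : (0 : ℝ) ≤ J := Nat.cast_nonneg J
  have hcA : cA D ≤ e * J := by
    have := hJ₁.trans hJ1
    rw [div_le_iff₀ he] at this
    linarith
  have hdeg : ∀ l ≤ 3, ∀ x, (H x l).totalDegree ≤ D := fun l hl x => hH.deg hl x
  have hE := nae_of hA hw0 hw1 hdeg b1 b2 b6 b7 he.le hcA
  have heJ : e * (J : ℝ) ≤ 12 * e * J := mul_le_mul_of_nonneg_right (by linarith) hJ0
  have hP1 : ∀ {τ nτ : ℝ}, nτ ≤ n 2 → NaP₀ F A c D w τ n nτ e H →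
      NaP F A c D w τ n nτ (24 * e) H := by
    rintro τ nτ hnn ⟨c1, c2, c3⟩
    have h3 := nap_of (e := 12 * e) hA hw0 hw1 hdeg hnn hE (c1.trans heJ)
      (le_trans (mul_le_mul_of_nonneg_right (by linarith) hJ0) c2) (by linarith) (by positivity)
      (hcA.trans heJ)
    have e1 : 2 * (12 * e) = 24 * e := by ring
    rw [e1] at h3
    exact h3
  refine ⟨hE.mono (by linarith), fun i hcl => ?_, fun i => hP1 (hn' i) (b4 i)⟩
  exact nat_of (hP1 (hn i) (b3 i)) ((b5 i).mono (by linarith)) hcl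

end Pool.NA36
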