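import Pool.Agent.H3.NA9.Geo
import Pool.Agent.H36.NA.Lit

/-!
# Two lines of one ball over the same near path

`tay_blk`: the Taylor coefficients of a polynomial which is small on a short window. `cl_geo`: two
lines with near paths of the coordinates `c l`, `l ≤ r`, and natural own paths of `c (r + 1)` over the
charts of a shorter window: their own paths of `c (r + 1)` over the charts of the window `w` agree to
the natural digits, all Taylor coefficients.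
-/

set_option autoImplicit false

namespace Pool.NA36

open Finset Real MvPolynomial
open Pool.Agent.H49.Ent Pool.Agent.H32.Dense Pool.STK Pool.KA Pool.KSAT Pool.K2S Pool.PB Pool.S6C
open Pool.GEN Pool.CHT Pool.D2R Pool.NDD66 Pool.NA3
open Pool.PB.Trl (rt rt_mem t_rt)
open Pool.AVG5 (jt jt_sub)

variable {m J : ℕ}

/-- **The Taylor coefficients** of a polynomial which is small on a short window. -/
theorem tay_blk (K : ℕ) : ∃ C : ℝ, 1 ≤ C ∧ ∀ (P : Polynomial ℝ) (w t n : ℕ) (ε s₀ : ℝ),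
    P.natDegree ≤ K → s₀ ∈ Set.Icc (0 : ℝ) 1 →
    (∀ s ∈ Set.Icc (0 : ℝ) 1, |P.eval (stm w t n s)| ≤ ε) →
    ∀ j, |jt P (stm w t n s₀) j| ≤ C * ε * (2 ^ (t - w)) ^ j := by
  obtain ⟨C₁, hC₁, h1⟩ := ext16 K
  obtain ⟨C₂, hC₂, h2⟩ := Pool.Agent.H40.FR.unit_coef K
  refine ⟨C₂ * C₁, by nlinarith, ?_⟩
  intro P w t n ε s₀ hP hs₀ hε j
  obtain ⟨N, hN⟩ : ∃ N : ℝ, N = 2 ^ (t - w) := ⟨_, rfl⟩
  have hN0 : 0 < N := by rw [hN]; positivity
  obtain ⟨a, ha⟩ : ∃ a : ℝ, a = ((n % 2 ^ (t - w) : ℕ) : ℝ) / N := ⟨_, rfl⟩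
  have hst : ∀ s, stm w t n s = a + s / N := fun s => by
    unfold stm
    rw [ha, hN]
    ring
  obtain ⟨q, hq⟩ : ∃ q : Polynomial ℝ, q = P.comp (Polynomial.C a + Polynomial.C (1 / N) *
    Polynomial.X) := ⟨_, rfl⟩
  have hqe : ∀ x, q.eval x = P.eval (stm w t n x) := fun x => by
    rw [hq, Polynomial.eval_comp]
    simp only [Polynomial.eval_add, Polynomial.eval_mul, Polynomial.eval_C, Polynomial.eval_X]
    rw [hst]
    congr 1
    ring
  have hlin : (Polynomial.C a + Polynomial.C (1 / N) * Polynomial.X : Polynomial ℝ).natDegree ≤ 1 := by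
    refine (Polynomial.natDegree_add_le _ _).trans (max_le ?_ ?_)
    · rw [Polynomial.natDegree_C]
      exact Nat.zero_le _
    · exact (Polynomial.natDegree_C_mul_le _ _).trans Polynomial.natDegree_X_le
  have hqd : q.natDegree ≤ K := by
    rw [hq]
    refine Polynomial.natDegree_comp_le.trans ?_
    exact (Nat.mul_le_mul_left _ hlin).trans (by omega)
  have h3 : ∀ x : ℝ, |x| ≤ 16 → |q.eval x| ≤ C₁ * ε := h1 q ε hqd fun s hs => by
    rw [hqe]
    exact hε s hs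
  obtain ⟨R, hR⟩ : ∃ R : Polynomial ℝ, R = (Polynomial.taylor (stm w t n s₀) P).comp
    (Polynomial.C (1 / N) * Polynomial.X) := ⟨_, rfl⟩
  have hRe : ∀ x, R.eval x = q.eval (s₀ + x) := fun x => by
    rw [hR, Polynomial.eval_comp, Polynomial.taylor_eval, hqe]
    simp only [Polynomial.eval_mul, Polynomial.eval_C, Polynomial.eval_X]
    rw [hst, hst]
    congr 1
    ring
  have hRd : R.natDegree ≤ K := by
    rw [hR]
    refine Polynomial.natDegree_comp_le.trans ?_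
    rw [Polynomial.natDegree_taylor]
    have h4 : (Polynomial.C (1 / N) * Polynomial.X : Polynomial ℝ).natDegree ≤ 1 :=
      (Polynomial.natDegree_C_mul_le _ _).trans Polynomial.natDegree_X_le
    exact (Nat.mul_le_mul_left _ h4).trans (by omega)
  have h5 := h2 R (C₁ * ε) hRd (fun x hx => by
    rw [hRe]
    refine h3 _ ?_
    rw [abs_le]
    constructor <;> linarith [hs₀.1, hs₀.2, hx.1, hx.2]) j
  have h6 : R.coeff j = jt P (stm w t n s₀) j * (1 / N) ^ j := by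
    rw [hR, Polynomial.comp_C_mul_X_coeff]
    rfl
  have h7 : jt P (stm w t n s₀) j = R.coeff j * N ^ j := by
    rw [h6, mul_assoc, ← mul_pow, one_div, inv_mul_cancel₀ hN0.ne', one_pow, mul_one]
  rw [h7, abs_mul, abs_pow, abs_of_pos hN0, ← hN]
  refine mul_le_mul_of_nonneg_right ?_ (by positivity)
  calc |R.coeff j| ≤ C₂ * (C₁ * ε) := h5
    _ = C₂ * C₁ * ε := by ring

/-- The relative time of a window from that of a shorter one. -/
theorem rt_stm (F : Fam m J) {w t : ℕ} (hw : w ≤ t) (ht : t ≤ J) (ω : F.Ω) :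
    rt F w ω = stm w t (slam F t ω).2.2 (rt F t ω) := by
  have h1 := lc_fine F hw ht ω (rt F t ω) none
  have h2 : (lc t (slam F t ω) none).eval (rt F t ω) = F.t ω := by
    have := eval_lc F ht ω none
    exact this
  have h3 : (lc w (slam F w ω) none).eval (rt F w ω) = F.t ω := by
    have := eval_lc F (hw.trans ht) ω none
    exact this
  rw [h2, ← h3] at h1
  rw [eval_lc', eval_lc'] at h1
  have h4 : (((slam F w ω).2.2 : ℝ) + rt F w ω) / 2 ^ w =
      (((slam F w ω).2.2 : ℝ) + stm w t (slam F t ω).2.2 (rt F t ω)) / 2 ^ w := h1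
  rw [div_left_inj' (by positivity)] at h4
  linarith

/-- **Two lines of one ball over the same near path.** -/
theorem cl_geo (D r : ℕ) : ∃ C : ℕ, 1 ≤ C ∧ ∀ {m J : ℕ} {F : Fam m J} {c : ℕ → Fin m}
    {w t k q B : ℕ} {gw gt : ℕ → ℕ} {χ ψ : ℕ → MvPolynomial (Option (Fin m)) ℝ} {ω ω' : F.Ω},
    Set.InjOn c (Set.Iio (r + 1)) → w ≤ t → t ≤ J → (∀ l ≤ r, gt l ≤ gw l + q) →
    (∀ l, (χ l).totalDegree ≤ D) → (∀ l, DepC c l (χ l)) →
    (∀ l, (ψ l).totalDegree ≤ D) → (∀ l, DepC c l (ψ l)) →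
    (∀ l ≤ r + 1, ∃ κ : ℝ, ∀ b, NBx c χ gt t (F.t ω) l b →
      |eval b (χ l) - eval b (ψ l) - κ| ≤ 2 ^ k / 2 ^ gw l) →
    (∀ l ≤ r + 1, ∀ s ∈ Set.Icc (0 : ℝ) 1,
      |(op t c χ (slam F t ω) l).eval s| ≤ 2 ^ k / 2 ^ gt l) →
    (∀ s ∈ Set.Icc (0 : ℝ) 1,
      |(op t c χ (slam F t ω') (r + 1)).eval s| ≤ 2 ^ k / 2 ^ gt (r + 1)) →
    F.T ω' = F.T ω →
    (∀ l ≤ r, ∀ σ ∈ Set.Icc (0 : ℝ) 1, |(op w c ψ (slam F w ω') l).eval σ -
      (op w c ψ (slam F w ω) l).eval σ| ≤ 1 / 2 ^ (gw l + B)) →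
    (r + 1) * (q + C * (k + 1)) ≤ B →
    gt (r + 1) + (r + 1) * (q + C * (k + 1)) ≤ gw (r + 1) + B →
    (∀ s ∈ Set.Icc (0 : ℝ) 1, |(op w c ψ (slam F w ω') (r + 1)).eval (stm w t (slam F t ω).2.2 s) -
      (op w c ψ (slam F w ω) (r + 1)).eval (stm w t (slam F t ω).2.2 s)| ≤
        2 ^ (C * (k + 1)) / 2 ^ gt (r + 1)) ∧
    ∀ j, |jt (op w c ψ (slam F w ω') (r + 1)) (rt F w ω) j -
      jt (op w c ψ (slam F w ω) (r + 1)) (rt F w ω) j| ≤
        2 ^ (C * (k + 1)) * (2 ^ (t - w)) ^ j / 2 ^ gt (r + 1) := by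
  obtain ⟨C₁, hC₁, hbx⟩ := pth_box D r
  obtain ⟨C₂, hC₂, htay⟩ := tay_blk (D + 1)
  obtain ⟨c₂, hc₂⟩ := pow_unbounded_of_one_lt C₂ (one_lt_two (α := ℝ))
  obtain ⟨C, hC⟩ : ∃ C : ℕ, C = C₁ + c₂ + 3 := ⟨_, rfl⟩
  refine ⟨C, by omega, ?_⟩
  intro m J F c w t k q B gw gt χ ψ ω ω' hc hwt htJ hg hχ hχd hψ hψd hcmp hown hown' hT hnear hB
    hB2
  have hk1 : ∀ n : ℕ, n ≤ n * (k + 1) := fun n => Nat.le_mul_of_pos_right _ (Nat.succ_pos k)
  have hCk : C * (k + 1) = C₁ * (k + 1) + c₂ * (k + 1) + 3 * (k + 1) := by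
    rw [hC]
    ring
  have h2k := hk1 c₂
  have hT1 : (slam F t ω').2.2 = (slam F t ω).2.2 := by
    show F.T ω' / _ = F.T ω / _
    rw [hT]
  obtain ⟨κ₁, hκ₁⟩ := hcmp (r + 1) le_rfl
  have hm1 : (r + 1) * (q + C₁ * (k + 1)) ≤ (r + 1) * (q + C * (k + 1)) :=
    Nat.mul_le_mul_left _ (by omega)
  have key : ∀ s ∈ Set.Icc (0 : ℝ) 1,
      |(op w c ψ (slam F w ω') (r + 1)).eval (stm w t (slam F t ω).2.2 s) -
      (op w c ψ (slam F w ω) (r + 1)).eval (stm w t (slam F t ω).2.2 s)| ≤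
        2 ^ ((C₁ + 3) * (k + 1)) / 2 ^ gt (r + 1) := by
    intro s hs
    have h1 := hbx (c := c) (w := w) (t := t) (k := k) (q := q) (B := B) (gw := gw) (gt := gt)
      (χ := χ) (ψ := ψ) (Q := χ (r + 1) - ψ (r + 1) - MvPolynomial.C κ₁) (M := 2 ^ k / 2 ^ gw (r + 1))
      (ω := ω) (ω' := ω') hc hwt htJ hg hχ hχd hψ hψd
      ((totalDegree_sub _ _).trans (max_le ((totalDegree_sub _ _).trans (max_le (hχ _) (hψ _)))
        (by rw [totalDegree_C]; exact Nat.zero_le _)))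
      (fun y y' h1 h2 => by
        rw [map_sub, map_sub, map_sub, map_sub, hχd _ y y' h1 h2, hψd _ y y' h1 h2, eval_C,
          eval_C]) (by positivity) (fun l hl => hcmp l (by omega))
      (fun b hb => by
        rw [map_sub, map_sub, eval_C]
        exact hκ₁ b ⟨hb.1.trans (one_div_le_one_div_of_le (by positivity)
          (pow_le_pow_right₀ (by norm_num) (by omega))), hb.2⟩)
      (fun l hl => hown l (by omega)) hT1 hnear (hm1.trans hB) s (by
        rw [abs_of_nonneg hs.1]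
        linarith [hs.2])
    rw [map_sub, map_sub, map_sub, map_sub, eval_C, eval_C] at h1
    have h2 := hown (r + 1) le_rfl s hs
    have h3 := hown' s hs
    have e1 := op_fine F hwt htJ c ψ ω' (r + 1) s
    have e2 := op_fine F hwt htJ c ψ ω (r + 1) s
    rw [hT1] at e1
    rw [← e1, ← e2]
    rw [op_eval] at h2 h3
    rw [op_eval, op_eval]
    obtain ⟨X', hX'⟩ : ∃ X', X' = (lc t (slam F t ω') (some (c (r + 1)))).eval s := ⟨_, rfl⟩
    obtain ⟨X, hX⟩ : ∃ X, X = (lc t (slam F t ω) (some (c (r + 1)))).eval s := ⟨_, rfl⟩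
    obtain ⟨a', ha'⟩ : ∃ a', a' = eval (fun o => (lc t (slam F t ω') o).eval s) (χ (r + 1)) :=
      ⟨_, rfl⟩
    obtain ⟨a, ha⟩ : ∃ a, a = eval (fun o => (lc t (slam F t ω) o).eval s) (χ (r + 1)) := ⟨_, rfl⟩
    obtain ⟨b', hb'⟩ : ∃ b', b' = eval (fun o => (lc t (slam F t ω') o).eval s) (ψ (r + 1)) :=
      ⟨_, rfl⟩
    obtain ⟨b, hb⟩ : ∃ b, b = eval (fun o => (lc t (slam F t ω) o).eval s) (ψ (r + 1)) := ⟨_, rfl⟩
    rw [← ha', ← ha, ← hb', ← hb] at h1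
    rw [← hX, ← ha] at h2
    rw [← hX', ← ha'] at h3
    rw [← hX', ← hX, ← hb', ← hb]
    have e3 : X' - b' - (X - b) = (X' - a') - (X - a) + (a' - b' - κ₁ - (a - b - κ₁)) := by ring
    rw [e3]
    have h4 : |(X' - a') - (X - a) + (a' - b' - κ₁ - (a - b - κ₁))| ≤
        2 ^ k / 2 ^ gt (r + 1) + 2 ^ k / 2 ^ gt (r + 1) +
        2 ^ (C₁ * (k + 1) + (r + 1) * (q + C₁ * (k + 1))) * (2 ^ k / 2 ^ gw (r + 1)) / 2 ^ B := by
      rw [abs_le] at h1 h2 h3 ⊢
      constructor <;> linarith [h1.1, h1.2, h2.1, h2.2, h3.1, h3.2]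
    refine h4.trans ?_
    have h5 : (2 : ℝ) ^ (C₁ * (k + 1) + (r + 1) * (q + C₁ * (k + 1))) * (2 ^ k / 2 ^ gw (r + 1)) /
        2 ^ B ≤ 2 ^ (C₁ * (k + 1) + k) / 2 ^ gt (r + 1) := by
      rw [mul_div_assoc', div_div, div_le_div_iff₀ (by positivity) (by positivity), ← pow_add,
        ← pow_add, ← pow_add, ← pow_add]
      exact pow_le_pow_right₀ (by norm_num) (by omega)
    have h6 : (2 : ℝ) ^ k / 2 ^ gt (r + 1) ≤ 2 ^ (C₁ * (k + 1) + k) / 2 ^ gt (r + 1) :=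
      div_le_div_of_nonneg_right (pow_le_pow_right₀ (by norm_num) (by omega)) (by positivity)
    have h7 : (2 : ℝ) ^ (C₁ * (k + 1) + k) / 2 ^ gt (r + 1) * 4 ≤
        2 ^ ((C₁ + 3) * (k + 1)) / 2 ^ gt (r + 1) := by
      rw [div_mul_eq_mul_div]
      refine div_le_div_of_nonneg_right ?_ (by positivity)
      have e4 : (2 : ℝ) ^ (C₁ * (k + 1) + k) * 4 = 2 ^ (C₁ * (k + 1) + k + 2) := by
        rw [pow_add _ _ 2]
        norm_num
      rw [e4]
      refine pow_le_pow_right₀ (by norm_num) ?_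
      have : (C₁ + 3) * (k + 1) = C₁ * (k + 1) + 3 * (k + 1) := by ring
      omega
    have h8 : (0 : ℝ) ≤ 2 ^ (C₁ * (k + 1) + k) / 2 ^ gt (r + 1) := by positivity
    linarith
  refine ⟨fun s hs => (key s hs).trans (div_le_div_of_nonneg_right (pow_le_pow_right₀
    (by norm_num) (Nat.mul_le_mul_right _ (by omega))) (by positivity)), fun j => ?_⟩
  obtain ⟨P, hP⟩ : ∃ P : Polynomial ℝ, P = op w c ψ (slam F w ω') (r + 1) -
    op w c ψ (slam F w ω) (r + 1) := ⟨_, rfl⟩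
  have hPd : P.natDegree ≤ D + 1 := by
    rw [hP]
    exact (Polynomial.natDegree_sub_le _ _).trans (max_le (op_deg w c hψ _ _) (op_deg w c hψ _ _))
  have h1 := htay P w t (slam F t ω).2.2 _ (rt F t ω) hPd
    (rt_mem F t ω) (fun s hs => by
      rw [hP, Polynomial.eval_sub]
      exact key s hs) j
  rw [← rt_stm F hwt htJ ω] at h1
  have e1 : jt (op w c ψ (slam F w ω') (r + 1)) (rt F w ω) j -
      jt (op w c ψ (slam F w ω) (r + 1)) (rt F w ω) j = jt P (rt F w ω) j := by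
    rw [hP, jt_sub]
  rw [e1]
  refine h1.trans ?_
  have h9 : C₂ * (2 ^ ((C₁ + 3) * (k + 1)) / 2 ^ gt (r + 1)) ≤
      2 ^ (C * (k + 1)) / 2 ^ gt (r + 1) := by
    rw [mul_div_assoc']
    refine div_le_div_of_nonneg_right ?_ (by positivity)
    calc C₂ * 2 ^ ((C₁ + 3) * (k + 1)) ≤ 2 ^ c₂ * 2 ^ ((C₁ + 3) * (k + 1)) :=
          mul_le_mul_of_nonneg_right hc₂.le (by positivity)
      _ = 2 ^ (c₂ + (C₁ + 3) * (k + 1)) := by rw [pow_add]
      _ ≤ 2 ^ (C * (k + 1)) := by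
          refine pow_le_pow_right₀ (by norm_num) ?_
          have : (C₁ + 3) * (k + 1) = C₁ * (k + 1) + 3 * (k + 1) := by ring
          omega
  have h10 := mul_le_mul_of_nonneg_right h9 (show (0 : ℝ) ≤ (2 ^ (t - w)) ^ j by positivity)
  refine h10.trans (le_of_eq ?_)
  ring

end Pool.NA36
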