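import Pool.Agent.H36.NA.Use

/-!
# The hypotheses of `na_core` and of `sl_lawN`

`na_h1`, `na_h2`, `na_hU`: for `f := (f1C, fbC)`, `fb := fbC`, `x0 := X0`, `Uc, Uf := hgC`, `r := rX`.
-/

set_option autoImplicit false

namespace Pool.NA36

open Finset Real MvPolynomial
open Pool.Agent.H49.Ent Pool.Agent.H32.Dense Pool.STK Pool.KA Pool.KSAT Pool.K2S Pool.PB Pool.GEN
open Pool.S6C Pool.RCD Pool.LA91 Pool.OWN68 Pool.CHT
open Pool.BFL (Pb)
open Pool.V0F (cR)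
open Pool.CLU (cpn_law cpn_pos cpn_marg)
open Pool.NDC42 (hgC pcC x0 xn xg rP LbW)
open Pool.PB.Trl (rt rt_mem)
open Pool.AVG5 (jt)

variable {m J : ℕ}

section

variable {F : Fam m J} {A : F.Ω → Prop} {c : ℕ → Fin m} {D : ℕ} {w : ℝ} {n : ℕ → ℝ}
  {H : LnT F → ℕ → MvPolynomial (Option (Fin m)) ℝ}

/-- The records of a pair are determined by the larger one. -/
theorem rX_rG {t τ nt : ℝ} {ω ω' : F.Ω}
    (h : rX F A c D w t τ n nt H ω = rX F A c D w t τ n nt H ω') :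
    rG F A c D w t τ n nt H ω = rG F A c D w t τ n nt H ω' ∧
      f2C F c D w n H ω = f2C F c D w n H ω' := by
  unfold rX X0 at h
  unfold rG
  simp only [Prod.mk.injEq] at h ⊢
  obtain ⟨⟨⟨h1, h2⟩, h3, h4, h5⟩, ⟨h6, h7⟩, h8⟩ := h
  exact ⟨⟨⟨⟨h1, h2⟩, h3, h5⟩, ⟨h6, h7⟩, h8⟩, h4⟩

/-- (f1) of `na_core`. -/
theorem na_h1 (hA : 0 < Pe F.p A) {t nt na a' e s₀ β δ : ℝ} (hn : na - (a' - w) ≤ n 2)
    (ht : NaT F A c D w t t n nt nt s₀ β δ e H) :
    CH (Pool.Agent.H49.Ent.cond F.p A True)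
      (fun ω => (f1C F c D w n H ω, fbC F c w H a' na ω)) (X0 F A c D w t n H) ≤
    CH (Pool.Agent.H49.Ent.cond F.p A True)
      (fun ω => (f1C F c D w n H ω, fbC F c w H a' na ω))
      (fun ω => ((hgC F c w H 2 nt ω, hgC F c w H 2 (n 2) ω), X0 F A c D w t n H ω)) +
      (e * J + Real.log 5) := by
  have hcl := isLaw_cond F.isLaw hA
  have h0 := hcl.nonneg
  have h1 := CH_chain h0 (fbC F c w H a' na) (f1C F c D w n H) (X0 F A c D w t n H)
  have h2 : CH (Pool.Agent.H49.Ent.cond F.p A True)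
      (fun ω => (f1C F c D w n H ω, fbC F c w H a' na ω)) (X0 F A c D w t n H) =
      CH (Pool.Agent.H49.Ent.cond F.p A True)
      (fun ω => (fbC F c w H a' na ω, f1C F c D w n H ω)) (X0 F A c D w t n H) :=
    Pool.MIC.CH_swl h0 _ _ _
  have h3 := fb_few (F := F) (c := c) (D := D) (H := H) (τ := a') (nτ := na) hn hcl
    (fun ω => (f1C F c D w n H ω, X0 F A c D w t n H ω)) fun ω ω' _ _ e => (Prod.ext_iff.mp e).1
  have h4 := ht.f1
  have h5 : CH (Pool.Agent.H49.Ent.cond F.p A True) (f1C F c D w n H)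
      (fun ω => ((hgC F c w H 2 nt ω, hgC F c w H 2 (n 2) ω), X0 F A c D w t n H ω)) ≤
      CH (Pool.Agent.H49.Ent.cond F.p A True)
      (fun ω => (f1C F c D w n H ω, fbC F c w H a' na ω))
      (fun ω => ((hgC F c w H 2 nt ω, hgC F c w H 2 (n 2) ω), X0 F A c D w t n H ω)) :=
    CH_mono_left h0 fun ω ω' _ _ e => (Prod.ext_iff.mp (Prod.ext_iff.mp e).1).1
  linarith

/-- (f2) of `na_core`. -/
theorem na_h2 (hA : 0 < Pe F.p A) {t nt na a' e s₀ β δ : ℝ}
    (ha : NaT F A c D w t a' n nt na s₀ β δ e H) :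
    CH (Pool.Agent.H49.Ent.cond F.p A True)
      (fun ω => (f1C F c D w n H ω, fbC F c w H a' na ω)) (X0 F A c D w t n H) -
    CH (Pool.Agent.H49.Ent.cond F.p A True) (fbC F c w H a' na) (X0 F A c D w t n H) ≤
    CH (Pool.Agent.H49.Ent.cond F.p A True)
      (fun ω => (f1C F c D w n H ω, fbC F c w H a' na ω)) (rX F A c D w t a' n nt H) + e * J := by
  have hcl := isLaw_cond F.isLaw hA
  have h0 := hcl.nonneg
  have h1 := CH_chain h0 (f1C F c D w n H) (fbC F c w H a' na) (X0 F A c D w t n H)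
  have h2 : CH (Pool.Agent.H49.Ent.cond F.p A True) (f1C F c D w n H)
      (fun ω => (fbC F c w H a' na ω, X0 F A c D w t n H ω)) ≤
      CH (Pool.Agent.H49.Ent.cond F.p A True) (f1C F c D w n H)
      (fun ω => ((cR F A w ω, F.Z ω), (vpC F c D w n H ω, (f2C F c D w n H ω,
        fbC F c w H a' na ω)))) := CH_mono_cond h0 fun ω ω' _ _ e => by
    unfold X0 at e
    simp only [Prod.mk.injEq] at e
    obtain ⟨e1, ⟨e2, e3⟩, e4, e5, e6⟩ := e
    have e7 : F.Z ω = F.Z ω' := (Prod.ext_iff.mp e3).2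
    rw [e1, e2, e4, e5, e7]
  have h3 := ha.f2
  have h4 : CH (Pool.Agent.H49.Ent.cond F.p A True) (f1C F c D w n H) (rX F A c D w t a' n nt H) ≤
      CH (Pool.Agent.H49.Ent.cond F.p A True)
      (fun ω => (f1C F c D w n H ω, fbC F c w H a' na ω)) (rX F A c D w t a' n nt H) :=
    CH_mono_left h0 fun ω ω' _ _ e => (Prod.ext_iff.mp (Prod.ext_iff.mp e).1).1
  linarith

/-- (hU) of `na_core`. -/
theorem na_hU (hA : 0 < Pe F.p A) {t nt e s₀ β δ : ℝ}
    (ht : NaT F A c D w t t n nt nt s₀ β δ e H)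
    (hw : CH (Pool.Agent.H49.Ent.cond F.p A True) (cR F A w) (fun ω => (cR F A t ω, F.W ω)) ≤ e * J) :
    (n 2 - nt) * Real.log 2 * J - 3 * (e * J) ≤ CH (Pool.Agent.H49.Ent.cond F.p A True)
      (hgC F c w H 2 (n 2)) (fun ω => (hgC F c w H 2 nt ω, X0 F A c D w t n H ω)) := by
  have hcl := isLaw_cond F.isLaw hA
  have h0 := hcl.nonneg
  obtain ⟨Y, hY⟩ : ∃ Y, Y = fun ω => ((cR F A t ω, F.W ω), x0 F A c D w n nt H ω) := ⟨_, rfl⟩
  have h1 := ht.fu
  rw [← hY] at h1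
  have h2 := CH_le_add h0 (hgC F c w H 2 (n 2)) (hgC F c w H 2 nt) Y
  have h3 : CH (Pool.Agent.H49.Ent.cond F.p A True) (hgC F c w H 2 nt) Y ≤ e * J :=
    le_trans (CH_mono_cond h0 fun ω ω' _ _ e => by
      rw [hY] at e
      exact (Prod.ext_iff.mp e).1) ht.hc
  have h4 : CH (Pool.Agent.H49.Ent.cond F.p A True) (hgC F c w H 2 (n 2))
      (fun ω => (hgC F c w H 2 nt ω, Y ω)) ≤ CH (Pool.Agent.H49.Ent.cond F.p A True)
      (hgC F c w H 2 (n 2)) (fun ω => (hgC F c w H 2 nt ω, X0 F A c D w t n H ω)) := by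
    refine CH_mono_cond h0 fun ω ω' _ _ e => ?_
    rw [hY] at e
    obtain ⟨e1, e2⟩ := Prod.ext_iff.mp e
    obtain ⟨e3, e4⟩ := Prod.ext_iff.mp e2
    obtain ⟨e5, e6⟩ := Prod.ext_iff.mp e3
    unfold x0 at e4
    simp only [Prod.mk.injEq] at e4
    obtain ⟨⟨e7, e8⟩, e9, e10, e11⟩ := e4
    refine Prod.ext e1 ?_
    have e12 : vpC F c D w n H ω = vpC F c D w n H ω' := e9
    have e13 : f2C F c D w n H ω = f2C F c D w n H ω' := by
      funext a
      have e14 := congrFun e10 a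
      unfold f2C
      unfold pcC Pool.AVG71.cod at e14 ⊢
      by_cases hh : 2 ≤ (a : ℕ)
      · rw [if_pos (by omega : 1 ≤ (a : ℕ)), if_pos (by omega : 1 ≤ (a : ℕ))] at e14
        rw [if_pos hh, if_pos hh]
        exact e14
      · rw [if_neg hh, if_neg hh]
    unfold X0
    dsimp only at e5 e6
    rw [e7, e6, e12, e13, e5]
  have hJ : (n 2 - nt) * Real.log 2 * J - e * J = ((n 2 - nt) * Real.log 2 - e) * J := by ring
  have heJ : 0 ≤ e * J := le_trans (CH_nonneg h0 _ _) hw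
  linarith

end

end Pool.NA36
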