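import Pool.Agent.H42.NDC.Gle
import Pool.Agent.H42.V0B.Lja
import Pool.Agent.H36.NA.Ded

/-!
# The letters of the base coordinates, class level

`v0_jtp`: all jets over labels of the window `w` of any precision from the heights over these labels
and the velocities over the labels of the base window. `hx_one`, `hx_cls`: the near position is few
bits given a later record. `v0_fr`: the near velocity is free given the near point, and it determines
the near path.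
-/

set_option autoImplicit false

namespace Pool.NA36

open Finset Real MvPolynomial
open Pool.Agent.H49.Ent Pool.Agent.H32.Dense Pool.STK Pool.KA Pool.KSAT Pool.K2S Pool.PB Pool.GEN
open Pool.S6C Pool.RCD Pool.LA91 Pool.AVG96
open Pool.OWN68 (F1 F0 few0_room few0_iff few_iff F1.mono)
open Pool.V0F
open Pool.NDC42 (hgC pcC x0 xn xg rP LbW LbV lbv_P uw_P jtC jtC_zero cD cD_nonneg cJ cJ_nonneg jt_of_pc
  pc_of_jt pc_cnt v0_jts mov_jets few_cut)

variable {m : ℕ}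

section

variable {S : PCl m} {c : ℕ → Fin m} {r : ℕ} {sn : ℕ → ℝ → ℝ} {G : Set ℝ} {b o φ : ℝ}
  {α γ : ∀ J : ℕ, Fam m J → Type}
  {f : ∀ (J : ℕ) (F : Fam m J), F.Ω → α J F} {y : ∀ (J : ℕ) (F : Fam m J), F.Ω → γ J F}

/-- **All jets over labels of the window** of any precision. -/
theorem v0_jtp (L : Lad S c r sn G b o φ)
    (hf : ∀ (J : ℕ) (F : Fam m J), ∃ χ : α J F → PtT F, ∀ ω, ptr F J ω = χ (f J F ω))
    (hy : Kn ((range 0).image c) 1 1 y) {w : ℝ} {n p : ℕ → ℝ} (hw : w ∈ G) (hbw : b ≤ w)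
    (hwo : w ≤ o) (hn : Nst r sn w φ n) (hnat : ∀ i < r, n i - sn i w + 3 * φ ≤ w - b)
    {P : Fin r → ℝ} (hP : ∀ i : Fin r, n i - w ≤ P i) {sp : ℕ → ℝ → ℝ}
    (hsp : ∀ i < r, sn i b - φ ≤ sp i b) (hsp' : ∀ i < r, sp i b ≤ sn i b)
    (hp : ∀ i < r, sn i w - φ ≤ p i) (Jm : ℕ) :
    Few S f (vg w) y ((qJets m c 0 r 0 (fun _ _ => w) (fun l _ => p l) (fun l _ => n l)).prod
      (qG m c r sp b P)) (qJets m c 0 r Jm (fun _ _ => w) (fun l _ => p l)
        (fun l j => n l - (j : ℝ) * w)) := by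
  obtain ⟨C₀, htm⟩ := L.tm
  have hφ := L.φ0
  obtain ⟨u₁, rd, hrd, hch⟩ := L.ch.ch w hw
  have hsn : ∀ i < r, sn i w - φ ≤ min (p i) (sn i w) := fun i hi =>
    le_min (hp i hi) (by linarith)
  have hsn' : ∀ i < r, sn i w - φ ≤ min (sn i w) (p i) := fun i hi =>
    le_min (by linarith) (hp i hi)
  -- the heights
  have h1 := mov_jets (f := f) (y := y) htm L.pos hch hf hy (v := w) (σ := φ) (p := p)
    (p' := fun l => sn l w) (n := n) (n' := n) (Jm := 0) hφ le_rfl hp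
    (fun i hi => by have := hn.lo i hi; linarith) (fun i hi => by have := hn.hi i hi; linarith)
    (fun i hi l hl => by have := hn.ne i hi l hl; linarith)
    (fun i hi => by rw [sub_self, mul_zero, add_zero])
    (fun i hi => by
      have h2 := hn.hi i hi
      have h3 := hsn i hi
      rw [sub_self, mul_zero, add_zero]
      linarith)
    (fun i hi l hl => by
      have h2 := hn.ne i hi l hl
      have h3 := hsn i hi
      rw [sub_self, mul_zero, add_zero]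
      linarith)
  -- the jets
  have h2 := v0_jts (f := f) (y := y) L hf hy hw hbw hwo hn hnat hP hsp hsp' Jm
  have h3 := mov_jets (f := f) (y := y) htm L.pos hch hf hy (v := w) (σ := φ)
    (p := fun l => sn l w) (p' := p) (n := n) (n' := n) (Jm := Jm) hφ le_rfl
    (fun i hi => by linarith)
    (fun i hi => by have := hn.lo i hi; linarith) (fun i hi => by have := hn.hi i hi; linarith)
    (fun i hi l hl => by have := hn.ne i hi l hl; linarith)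
    (fun i hi => by rw [sub_self, mul_zero, add_zero])
    (fun i hi => by
      have h2 := hn.hi i hi
      have h3 := hsn' i hi
      rw [sub_self, mul_zero, add_zero]
      linarith)
    (fun i hi l hl => by
      have h2 := hn.ne i hi l hl
      have h3 := hsn' i hi
      rw [sub_self, mul_zero, add_zero]
      linarith)
  have hx1 : Exs S (qJets m c 0 r 0 (fun _ _ => w) (fun l _ => sn l w) (fun l _ => n l)) :=
    exs_qjets fun l l0 l1 j' _ => exs_jet (hrd l l1) (hch.att l l0 l1)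
  have hx2 : Exs S (qJets m c 0 r Jm (fun _ _ => w) (fun l _ => sn l w)
      (fun l j => n l - (j : ℝ) * w)) :=
    exs_qjets fun l l0 l1 j' _ => exs_jet (hrd l l1) (hch.att l l0 l1)
  have hcg : ∀ (p₁ : ℕ → ℝ), ∀ K e J (F : Fam m J) (A : F.Ω → Prop) (u : F.Ω → ℕ → ℕ → ℤ),
      (qJets m c 0 r 0 (fun _ _ => w) (fun l _ => p₁ l) (fun l _ => n l)).P K e J F A u ↔
      (qJets m c 0 r 0 (fun _ _ => w) (fun l _ => p₁ l)
        (fun l j => n l - (j : ℝ) * w)).P K e J F A u := by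
    intro p₁ K e J F A u
    constructor
    · rintro ⟨a1, a2⟩
      refine ⟨fun i h0 hi j hj => ?_, a2⟩
      obtain rfl : j = 0 := by omega
      have e1 : n i - ((0 : ℕ) : ℝ) * w = n i := by rw [Nat.cast_zero, zero_mul, sub_zero]
      show (qJet m ((range i).image c) (c i) 0 w (p₁ i) (n i - ((0 : ℕ) : ℝ) * w)).P K e J F A
        (fun ω => u ω i 0)
      rw [e1]
      exact a1 i h0 hi 0 le_rfl
    · rintro ⟨a1, a2⟩
      refine ⟨fun i h0 hi j hj => ?_, a2⟩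
      obtain rfl : j = 0 := by omega
      have e1 : n i - ((0 : ℕ) : ℝ) * w = n i := by rw [Nat.cast_zero, zero_mul, sub_zero]
      have e2 : (qJet m ((range i).image c) (c i) 0 w (p₁ i) (n i - ((0 : ℕ) : ℝ) * w)).P K e J F A
        (fun ω => u ω i 0) := a1 i h0 hi 0 le_rfl
      rw [e1] at e2
      exact e2
  have h4 : Few S f (vg w) y ((qJets m c 0 r 0 (fun _ _ => w) (fun l _ => p l)
      (fun l _ => n l)).prod (qG m c r sp b P))
      (qJets m c 0 r 0 (fun _ _ => w) (fun l _ => sn l w) (fun l _ => n l)) := by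
    intro h hh
    obtain ⟨e₀, he₀, h5⟩ := Few.pre L.pos (fun u : (ℕ → ℕ → ℤ) × (Fin r → ℤ) => u.1)
      (Q := (qJets m c 0 r 0 (fun _ _ => w) (fun l _ => p l) (fun l _ => n l)).prod
        (qG m c r sp b P)) (fun K e J F A u hu => (hcg p K e J F A _).1 hu.1) h1 h hh
    refine ⟨e₀, he₀, fun K => Bas.mono 0 (h5 K) ?_⟩
    rintro J - F A h6 u u' hu hu'
    exact h6 u u' hu ((hcg (fun l => sn l w) K e₀ J F A u').1 hu')
  have h5 : Few S f (vg w) y ((qJets m c 0 r 0 (fun _ _ => w) (fun l _ => p l)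
      (fun l _ => n l)).prod (qG m c r sp b P)) (qJets m c 0 r Jm (fun _ _ => w)
        (fun l _ => sn l w) (fun l j => n l - (j : ℝ) * w)) := by
    refine few_cut htm hx1 h4 (Few.pre L.pos
      (fun u : ((ℕ → ℕ → ℤ) × (Fin r → ℤ)) × (ℕ → ℕ → ℤ) => (u.2, u.1.2)) ?_ h2)
    intro K e J F A u hu
    exact ⟨hu.2, hu.1.2⟩
  exact Few.trans L.pos hx2 h5 h3

end

/-- **The height** over the labels of the window `w` is few bits given a later record. -/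
theorem hx_one {S : PCl m} {c : ℕ → Fin m} {r : ℕ} {sn : ℕ → ℝ → ℝ} {G : Set ℝ} {b o φ : ℝ}
    (L : Lad S c r sn G b o φ) {w x x' N : ℝ} {p : ℕ → ℝ} (hw : w ∈ G) (hx : x ∈ G) (hx' : x' ∈ G)
    (hbw : b ≤ w) (hwx : w ≤ x) (hxx : x + 60 * ((r : ℝ) + 1) * φ ≤ x') (hxo : x' ≤ o)
    (hx1 : x' + 60 * ((r : ℝ) + 1) * φ ≤ 1) (hp : sn r w - φ ≤ p r)
    (h1 : N + 60 * ((r : ℝ) + 1) * φ ≤ sn r x)
    (h2 : N + 60 * ((r : ℝ) + 1) * φ ≤ sn r w + (x' - w)) (D : ℕ) {e : ℝ} (he : 0 < e) :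
    ∃ e₁ : ℝ, 0 < e₁ ∧ ∀ e₂ ≤ e₁, Bas S (fun J F A => ∀ (R : ℕ)
      (H : LnT F → ℕ → MvPolynomial (Option (Fin m)) ℝ), r ≤ R → LbV F A c R D w e₂ p H →
      CH (Pool.Agent.H49.Ent.cond F.p A True) (hgC F c w H r N) (fun ω => (cR F A x' ω, F.W ω)) ≤
        e * J) := by
  have hw0 : 0 ≤ w := L.b0.trans hbw
  have hw1 : w ≤ 1 := by
    have h0 : 0 ≤ 60 * ((r : ℝ) + 1) * φ := by
      have := L.φ0
      positivity
    linarith
  have h3 := t_nu0 L (f := fun J F => ptr F J) (y := fun _ F => F.W)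
    (fun J F => ⟨fun x => x, fun _ => rfl⟩) kn_W (w := w) (x := x) (x' := x') (ox := x')
    (pr := p r) (N := N) hw hx hx' hbw hwx hxx hxo le_rfl (by
      have h0 : 0 ≤ 60 * ((r : ℝ) + 1) * φ := by
        have := L.φ0
        positivity
      linarith) hx1 hp h1 h2
  obtain ⟨e₁, he₁, H1⟩ := h3.mx L.pos e he
  obtain ⟨M, J₁, hM⟩ := lbv_P m D 0 (N := N) (w := w) hw0 hw1
  refine ⟨e₁, he₁, fun e₂ he₂ => Bas.mono J₁ ((H1 M).and (pos_bas L.pos)) ?_⟩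
  rintro J hJ F A ⟨h4, hA⟩ R H hR hH
  have h5 := hM M le_rfl J hJ F A c R e₂ p H hH r hR
  have h6 := h4 _ (cR F A x') (mx_cR hA x' (half_pos he).le) _ ((qJet m _ _ _ _ _ _).mono le_rfl he₂ h5)
  have e1 : (fun ω => ⌊(2 : ℝ) ^ (N * J) * ojet F (c r) 0 (H (slam F ⌊w * J⌋₊ ω) r) ω⌋) =
      hgC F c w H r N := rfl
  rw [e1] at h6
  exact h6

/-- **Free near velocities and the near path**, two base coordinates. -/
theorem v0_fr' {S : PCl m} {c : ℕ → Fin m} {sn : ℕ → ℝ → ℝ} {G : Set ℝ} {b o φ : ℝ}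
    (L : Lad S c 2 sn G b o φ) {w x' κ : ℝ} {n p : ℕ → ℝ} (hw : w ∈ G) (hx' : x' ∈ G) (hbw : b ≤ w)
    (hxo : x' ≤ o) (hn : Nst 2 sn w φ n) (hnat : ∀ i < 2, n i - sn i w + 3 * φ ≤ w - b)
    {P : Fin 2 → ℝ} (hP : ∀ i : Fin 2, n i - w ≤ P i) {sp : ℕ → ℝ → ℝ}
    (hsp : ∀ i < 2, sn i b - φ ≤ sp i b) (hsp' : ∀ i < 2, sp i b ≤ sn i b)
    (hp : ∀ i ≤ 2, sn i w - φ ≤ p i) (hfr : FrI S c 2 sp b P w x' κ)
    (hlv : ∀ i ≤ 2, ∃ x ∈ G, w ≤ x ∧ x + 360 * φ ≤ x' ∧ n i + 360 * φ ≤ sn i x)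
    (hlw : ∀ i ≤ 2, n i + 360 * φ ≤ sn i w + (x' - w)) (hx1 : x' + 360 * φ ≤ 1) (D : ℕ) {e : ℝ}
    (he : 0 < e) (hκ : κ ≤ e) :
    ∃ e₁ : ℝ, 0 < e₁ ∧ Bas S (fun J F A => ∃ ud : F.Ω → Fin 2 → ℤ,
      ∀ H : LnT F → ℕ → MvPolynomial (Option (Fin m)) ℝ, LbV F A c 2 D w e₁ p H →
      CH (Pool.Agent.H49.Ent.cond F.p A True) ud (fun ω => (cR F A w ω, F.W ω)) ≤
        CH (Pool.Agent.H49.Ent.cond F.p A True) ud (rP F A c w x' n H) + 5 * (e * J) ∧
      CH (Pool.Agent.H49.Ent.cond F.p A True) (vpC F c D w n H) (fun ω => ((cR F A w ω, F.W ω),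
        ((fun l : Fin 2 => hgC F c w H l (n l) ω), ud ω))) ≤ 5 * (e * J) ∧
      CH (Pool.Agent.H49.Ent.cond F.p A True)
        (fun ω => ((fun l : Fin 2 => hgC F c w H l (n l) ω), hgC F c w H 2 (n 2) ω))
        (fun ω => (cR F A x' ω, F.W ω)) ≤ 5 * (e * J)) := by
  have hφ := L.φ0
  have hw0 : 0 ≤ w := L.b0.trans hbw
  have hwx' : w ≤ x' := by
    obtain ⟨x, -, h1, h2, -⟩ := hlv 0 (by norm_num)
    linarith
  have hw1 : w ≤ 1 := by linarith
  have hwo : w ≤ o := hwx'.trans hxo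
  have hf : ∀ (J : ℕ) (F : Fam m J), ∃ χ : PtT F → PtT F, ∀ ω, ptr F J ω = χ (ptr F J ω) :=
    fun J F => ⟨fun x => x, fun _ => rfl⟩
  -- the near position
  have hxi : ∀ i ≤ 2, ∃ e₁ : ℝ, 0 < e₁ ∧ ∀ e₂ ≤ e₁, Bas S (fun J F A => ∀ (R : ℕ)
      (H : LnT F → ℕ → MvPolynomial (Option (Fin m)) ℝ), i ≤ R → LbV F A c R D w e₂ p H →
      CH (Pool.Agent.H49.Ent.cond F.p A True) (hgC F c w H i (n i))
        (fun ω => (cR F A x' ω, F.W ω)) ≤ e * J) := by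
    intro i hi
    obtain ⟨x, hx, h1, h2, h3⟩ := hlv i hi
    have h4 := hlw i hi
    have h5 := hp i hi
    rcases Nat.lt_or_ge i 2 with h | h
    · have hi3 : (i : ℝ) ≤ 1 := by exact_mod_cast Nat.lt_succ_iff.1 h
      have h6 : 60 * ((i : ℝ) + 1) * (2 * φ) ≤ 360 * φ := by nlinarith
      exact hx_one (L.low h) hw hx hx' hbw h1 (by linarith) hxo (by linarith) (by linarith)
        (by linarith) (by linarith) D he
    · obtain rfl : i = 2 := by omega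
      have h6 : 60 * (((2 : ℕ) : ℝ) + 1) * φ ≤ 360 * φ := by
        push_cast
        nlinarith
      exact hx_one L hw hx hx' hbw h1 (by linarith) hxo (by linarith) (by linarith)
        (by linarith) (by linarith) D he
  obtain ⟨a0, ha0, A0⟩ := hxi 0 (by norm_num)
  obtain ⟨a1, ha1, A1⟩ := hxi 1 (by norm_num)
  obtain ⟨a2, ha2, A2⟩ := hxi 2 le_rfl
  -- the jets
  obtain ⟨e3, he3, H3⟩ := (v0_jtp (f := fun J F => ptr F J) (y := fun _ F => F.W) L hf kn_W hw hbw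
    hwo hn hnat hP hsp hsp' (fun i hi => hp i hi.le) (D + 1)).mx L.pos e he
  -- the velocities
  obtain ⟨k4, hk4, e4, he4, H4⟩ := hfr
  obtain ⟨u₁, rd, hrd, hch⟩ := L.ch.ch b L.bG
  have hxs : Exs S (qG m c 2 sp b P) := exs_pi fun i => exs_jet (hrd i i.2)
    ((hch.att i (Nat.zero_le _) i.2).le hch.u0.le (hsp' i i.2))
  obtain ⟨e₁, he₁, l0, l1, l2, l3, l4⟩ : ∃ e₁ : ℝ, 0 < e₁ ∧ e₁ ≤ a0 ∧ e₁ ≤ a1 ∧ e₁ ≤ a2 ∧
      e₁ ≤ e3 ∧ e₁ ≤ e4 := by
    refine ⟨min (min a0 a1) (min a2 (min e3 e4)), by positivity, ?_, ?_, ?_, ?_, ?_⟩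
    · exact (min_le_left _ _).trans (min_le_left _ _)
    · exact (min_le_left _ _).trans (min_le_right _ _)
    · exact (min_le_right _ _).trans (min_le_left _ _)
    · exact (min_le_right _ _).trans ((min_le_right _ _).trans (min_le_left _ _))
    · exact (min_le_right _ _).trans ((min_le_right _ _).trans (min_le_right _ _))
  obtain ⟨K5, M5, H5⟩ := hxs e₁ he₁
  obtain ⟨M6, J6, H6⟩ := uw_P c 2 D (D + 1) hw0 hw1 n
  obtain ⟨M7, J7, H7⟩ := lbv_P m D 0 (N := n 0) (w := w) hw0 hw1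
  obtain ⟨M8, J8, H8⟩ := lbv_P m D 0 (N := n 1) (w := w) hw0 hw1
  obtain ⟨K, hK⟩ : ∃ K, K = max (max K5 M6) (max M7 M8) := ⟨_, rfl⟩
  have hK5 : K5 ≤ K := by rw [hK]; exact (le_max_left _ _).trans (le_max_left _ _)
  have hK6 : M6 ≤ K := by rw [hK]; exact (le_max_right _ _).trans (le_max_left _ _)
  have hK7 : M7 ≤ K := by rw [hK]; exact (le_max_left _ _).trans (le_max_right _ _)
  have hK8 : M8 ≤ K := by rw [hK]; exact (le_max_right _ _).trans (le_max_right _ _)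
  obtain ⟨J9, hJ9⟩ := exists_nat_ge (cD D / e)
  refine ⟨e₁, he₁, Bas.mono (max (max J6 J7) (max J8 J9)) (((A0 e₁ l0).and (A1 e₁ l1)).and
    ((A2 e₁ l2).and (((H3 K).and (H4 K)).and (H5.and (pos_bas L.pos))))) ?_⟩
  rintro J hJ F A ⟨⟨b0, b1⟩, b2, ⟨b3, b4⟩, ⟨ud, hud, -⟩, hA⟩
  have hJ6 : J6 ≤ J := ((le_max_left _ _).trans (le_max_left _ _)).trans hJ
  have hJ7 : J7 ≤ J := ((le_max_right _ _).trans (le_max_left _ _)).trans hJ
  have hJ8 : J8 ≤ J := ((le_max_left _ _).trans (le_max_right _ _)).trans hJ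
  have hJ9' : (J9 : ℝ) ≤ J := by exact_mod_cast ((le_max_right _ _).trans (le_max_right _ _)).trans hJ
  have hcD : cD D ≤ e * J := by
    have := hJ9.trans hJ9'
    rw [div_le_iff₀ he] at this
    linarith
  have hcl := isLaw_cond F.isLaw hA
  have h0 := hcl.nonneg
  refine ⟨ud, fun H hH => ?_⟩
  have g0 := b0 2 H (by norm_num) hH
  have g1 := b1 2 H (by norm_num) hH
  have g2 := b2 2 H le_rfl hH
  have heJ : 0 ≤ e * J := mul_nonneg he.le (Nat.cast_nonneg J)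
  have hκJ : κ * J ≤ e * J := mul_le_mul_of_nonneg_right hκ (Nat.cast_nonneg J)
  -- the near position, together
  have hpos : CH (Pool.Agent.H49.Ent.cond F.p A True)
      (fun ω => ((fun l : Fin 2 => hgC F c w H l (n l) ω), hgC F c w H 2 (n 2) ω))
      (fun ω => (cR F A x' ω, F.W ω)) ≤ 3 * (e * J) := by
    have k1 := CH_chain h0 (fun ω => fun l : Fin 2 => hgC F c w H l (n l) ω)
      (hgC F c w H 2 (n 2)) (fun ω => (cR F A x' ω, F.W ω))
    have k1' : CH (Pool.Agent.H49.Ent.cond F.p A True) (fun ω => fun l : Fin 2 =>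
        hgC F c w H l (n l) ω) (fun ω => (hgC F c w H 2 (n 2) ω, (cR F A x' ω, F.W ω))) ≤
        CH (Pool.Agent.H49.Ent.cond F.p A True) (fun ω => fun l : Fin 2 =>
        hgC F c w H l (n l) ω) (fun ω => (cR F A x' ω, F.W ω)) :=
      CH_mono_cond h0 fun ω ω' _ _ e => (Prod.ext_iff.mp e).2
    have k2 : CH (Pool.Agent.H49.Ent.cond F.p A True) (fun ω => fun l : Fin 2 =>
        hgC F c w H l (n l) ω) (fun ω => (cR F A x' ω, F.W ω)) ≤ 2 * (e * J) := by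
      refine (Pool.OWN68.CH_pis h0 _ _).trans ?_
      rw [Fin.sum_univ_two]
      have g0' : CH (Pool.Agent.H49.Ent.cond F.p A True) (fun ω => hgC F c w H ((0 : Fin 2) : ℕ)
          (n ((0 : Fin 2) : ℕ)) ω) (fun ω => (cR F A x' ω, F.W ω)) ≤ e * J := g0
      have g1' : CH (Pool.Agent.H49.Ent.cond F.p A True) (fun ω => hgC F c w H ((1 : Fin 2) : ℕ)
          (n ((1 : Fin 2) : ℕ)) ω) (fun ω => (cR F A x' ω, F.W ω)) ≤ e * J := g1
      linarith
    linarith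
  refine ⟨?_, ?_, by linarith⟩
  · -- the velocity is free
    have k1 := b4 _ (cR F A w) _ (cR F A x') (mx_cR hA w hk4.le) (mx_cR hA x' hk4.le) ud
      ((qG m c 2 sp b P).mono hK5 l4 hud)
    have k2 := CH_le_add h0 ud
      (fun ω => ((fun l : Fin 2 => hgC F c w H l (n l) ω), hgC F c w H 2 (n 2) ω))
      (fun ω => (cR F A x' ω, F.W ω))
    have k3 : CH (Pool.Agent.H49.Ent.cond F.p A True) ud (fun ω => (((fun l : Fin 2 =>
        hgC F c w H l (n l) ω), hgC F c w H 2 (n 2) ω), (cR F A x' ω, F.W ω))) ≤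
        CH (Pool.Agent.H49.Ent.cond F.p A True) ud (rP F A c w x' n H) :=
      CH_mono_cond h0 fun ω ω' _ _ e => by
        unfold rP
        obtain ⟨e1, e2⟩ := Prod.ext_iff.mp e
        exact Prod.ext e2 e1
    linarith
  · -- the near path
    obtain ⟨U0, hU0⟩ : ∃ U0 : F.Ω → ℕ → ℕ → ℤ, U0 = fun ω i j =>
      if i < 2 ∧ j ≤ 0 then hgC F c w H i (n i) ω else 0 := ⟨_, rfl⟩
    obtain ⟨U1, hU1⟩ : ∃ U1 : F.Ω → ℕ → ℕ → ℤ, U1 = fun ω i j =>
      if i < 2 ∧ j ≤ D + 1 then jtC F c w H i j (n i) ω else 0 := ⟨_, rfl⟩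
    have hP0 : (qJets m c 0 2 0 (fun _ _ => w) (fun l _ => p l) (fun l _ => n l)).P K e3 J F A U0 := by
      refine ⟨fun i _ hi j hj => ?_, fun ω _ i j h => ?_⟩
      · obtain rfl : j = 0 := by omega
        have e1 : (fun ω => U0 ω i 0) = hgC F c w H i (n i) := by
          funext ω
          rw [hU0]
          exact if_pos ⟨hi, le_rfl⟩
        show (qJet m ((range i).image c) (c i) 0 w (p i) (n i)).P K e3 J F A (fun ω => U0 ω i 0)
        rw [e1]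
        have hi2 : i = 0 ∨ i = 1 := by omega
        rcases hi2 with rfl | rfl
        · exact (qJet m _ _ _ _ _ _).mono le_rfl l3 (H7 K hK7 J hJ7 F A c 2 e₁ p H hH 0 (by norm_num))
        · exact (qJet m _ _ _ _ _ _).mono le_rfl l3 (H8 K hK8 J hJ8 F A c 2 e₁ p H hH 1 (by norm_num))
      · rw [hU0]
        exact if_neg fun h' => h ⟨Nat.zero_le _, h'.1, h'.2⟩
    have hP1 : (qJets m c 0 2 (D + 1) (fun _ _ => w) (fun l _ => p l)
        (fun l j => n l - (j : ℝ) * w)).P K e3 J F A U1 := by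
      rw [hU1]
      exact (qJets m _ _ _ _ _ _ _).mono le_rfl l3
        (H6 K hK6 J hJ6 F A 2 e₁ p H (by norm_num) hH)
    have k1 := b3 _ (cR F A w) (mx_cR hA w (half_pos he).le) (fun ω => (U0 ω, ud ω)) U1
      ⟨hP0, (qG m c 2 sp b P).mono hK5 l3 hud⟩ hP1
    obtain ⟨Y, hY⟩ : ∃ Y, Y = fun ω => ((cR F A w ω, F.W ω),
      ((fun l : Fin 2 => hgC F c w H l (n l) ω), ud ω)) := ⟨_, rfl⟩
    rw [← hY]
    have hYe : ∀ ω ω', Y ω = Y ω' → cR F A w ω = cR F A w ω' ∧ F.W ω = F.W ω' ∧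
        (fun l : Fin 2 => hgC F c w H l (n l) ω) = (fun l : Fin 2 => hgC F c w H l (n l) ω') ∧
        ud ω = ud ω' := fun ω ω' e => by
      rw [hY] at e
      simp only [Prod.mk.injEq] at e
      exact ⟨e.1.1, e.1.2, e.2.1, e.2.2⟩
    have k2 : CH (Pool.Agent.H49.Ent.cond F.p A True) U1 Y ≤ e * J :=
      le_trans (CH_mono_cond h0 fun ω ω' _ _ e => by
        obtain ⟨e1, e2, e3, e4⟩ := hYe ω ω' e
        refine Prod.ext (Prod.ext ?_ e4) (Prod.ext e1 e2)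
        show U0 ω = U0 ω'
        rw [hU0]
        funext i j
        by_cases hi : i < 2 ∧ j ≤ 0
        · show (if i < 2 ∧ j ≤ 0 then _ else _) = (if i < 2 ∧ j ≤ 0 then _ else _)
          rw [if_pos hi, if_pos hi]
          exact congrFun e3 ⟨i, hi.1⟩
        · show (if i < 2 ∧ j ≤ 0 then _ else _) = (if i < 2 ∧ j ≤ 0 then _ else _)
          rw [if_neg hi, if_neg hi]) k1
    have hpc : ∀ l : Fin 2, CH (Pool.Agent.H49.Ent.cond F.p A True) (pcC F c D w H l 0 (n l))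
        (fun ω => (U1 ω, Y ω)) ≤ cD D := fun l => by
      refine (pc_of_jt hw0 hw1 (fun x => hH.deg (by omega) x) hcl (fun ω => (U1 ω, Y ω))
        (fun ω ω' hω hω' e => by
          have e2 := (hYe ω ω' (Prod.ext_iff.mp e).2).2.1
          exact (Prod.ext_iff.mp e2).1) (g := fun _ => 0) (fun j _ hj => ?_)
        fun j => le_rfl).trans (le_of_eq (by rw [Finset.sum_const_zero, zero_add]))
      refine le_of_eq (CH_eq_zero h0 fun ω ω' hω hω' e => ?_)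
      have e1 := congrFun (congrFun (Prod.ext_iff.mp e).1 l) j
      rw [hU1] at e1
      have hl : (l : ℕ) < 2 ∧ j ≤ D + 1 := ⟨l.2, hj⟩
      simp only [if_pos hl] at e1
      exact e1
    have k3 := CH_le_add h0 (vpC F c D w n H) U1 Y
    have k4 : CH (Pool.Agent.H49.Ent.cond F.p A True) (vpC F c D w n H) (fun ω => (U1 ω, Y ω)) ≤
        2 * cD D := by
      refine (Pool.OWN68.CH_pis h0 _ _).trans ?_
      refine (Finset.sum_le_sum fun l _ => hpc l).trans (le_of_eq ?_)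
      rw [Finset.sum_const, Finset.card_univ, Fintype.card_fin, nsmul_eq_mul]
      norm_num
    linarith

/-- **Free near velocities and the near path**, two base coordinates: (fr), (hx) of `NaE` and the
`c 0, c 1` part of (fr) of `NdE`, with one velocity. -/
theorem v0_fr {S : PCl m} {c : ℕ → Fin m} {sn : ℕ → ℝ → ℝ} {G : Set ℝ} {b o φ : ℝ}
    (L : Lad S c 2 sn G b o φ) {w x' κ : ℝ} {n p : ℕ → ℝ} (hw : w ∈ G) (hx' : x' ∈ G) (hbw : b ≤ w)
    (hxo : x' ≤ o) (hn : Nst 2 sn w φ n) (hnat : ∀ i < 2, n i - sn i w + 3 * φ ≤ w - b)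
    {P : Fin 2 → ℝ} (hP : ∀ i : Fin 2, n i - w ≤ P i) {sp : ℕ → ℝ → ℝ}
    (hsp : ∀ i < 2, sn i b - φ ≤ sp i b) (hsp' : ∀ i < 2, sp i b ≤ sn i b)
    (hp : ∀ i ≤ 2, sn i w - φ ≤ p i) (hfr : FrI S c 2 sp b P w x' κ)
    (hlv : ∀ i ≤ 2, ∃ x ∈ G, w ≤ x ∧ x + 360 * φ ≤ x' ∧ n i + 360 * φ ≤ sn i x)
    (hlw : ∀ i ≤ 2, n i + 360 * φ ≤ sn i w + (x' - w)) (hx1 : x' + 360 * φ ≤ 1) (D : ℕ) {e : ℝ}
    (he : 0 < e) (hκ : 5 * κ ≤ e) :
    ∃ e₁ : ℝ, 0 < e₁ ∧ Bas S (fun J F A => ∃ ud : F.Ω → Fin 2 → ℤ,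
      ∀ H : LnT F → ℕ → MvPolynomial (Option (Fin m)) ℝ, LbV F A c 2 D w e₁ p H →
      CH (Pool.Agent.H49.Ent.cond F.p A True) ud (fun ω => (cR F A w ω, F.W ω)) ≤
        CH (Pool.Agent.H49.Ent.cond F.p A True) ud (rP F A c w x' n H) + e * J ∧
      CH (Pool.Agent.H49.Ent.cond F.p A True) (fun ω => fun l : Fin 2 => pcC F c D w H l 0 (n l) ω)
        (fun ω => ((cR F A w ω, F.W ω), ((fun l : Fin 2 => hgC F c w H l (n l) ω), ud ω))) ≤ e * J ∧
      CH (Pool.Agent.H49.Ent.cond F.p A True)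
        (fun ω => ((fun l : Fin 2 => hgC F c w H l (n l) ω), hgC F c w H 2 (n 2) ω))
        (fun ω => (cR F A x' ω, F.W ω)) ≤ e * J) := by
  obtain ⟨e₁, he₁, H1⟩ := v0_fr' L hw hx' hbw hxo hn hnat hP hsp hsp' hp hfr hlv hlw hx1 D
    (e := e / 5) (by positivity) (by linarith)
  refine ⟨e₁, he₁, Bas.mono 0 H1 ?_⟩
  rintro J - F A ⟨ud, h⟩
  refine ⟨ud, fun H hH => ?_⟩
  obtain ⟨h1, h2, h3⟩ := h H hH
  have e1 : 5 * (e / 5 * (J : ℝ)) = e * J := by ring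
  rw [e1] at h1 h2 h3
  exact ⟨h1, h2, h3⟩

/-- **The height to the natural digits of a later window** is few bits given its record. -/
theorem hc_cls {S : PCl m} {c : ℕ → Fin m} {r : ℕ} {sn : ℕ → ℝ → ℝ} {G : Set ℝ} {b o φ : ℝ}
    (L : Lad S c r sn G b o φ) {w x x' N N' : ℝ} {p : ℕ → ℝ} (hw : w ∈ G) (hx : x ∈ G) (hx' : x' ∈ G)
    (hbw : b ≤ w) (hwx : w ≤ x) (hxx : x + 60 * ((r : ℝ) + 1) * φ ≤ x') (hxo : x' ≤ o)
    (hx1 : x' + 60 * ((r : ℝ) + 1) * φ ≤ 1) (hp : sn r w - φ ≤ p r)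
    (h1 : N + 60 * ((r : ℝ) + 1) * φ ≤ sn r x)
    (h2 : N + 60 * ((r : ℝ) + 1) * φ ≤ sn r w + (x' - w)) (hN : N ≤ N') (D : ℕ) {e : ℝ}
    (he : N' - N < e) :
    ∃ e₁ : ℝ, 0 < e₁ ∧ ∀ e₂ ≤ e₁, Bas S (fun J F A => ∀ (R : ℕ)
      (H : LnT F → ℕ → MvPolynomial (Option (Fin m)) ℝ), r ≤ R → LbV F A c R D w e₂ p H →
      CH (Pool.Agent.H49.Ent.cond F.p A True) (hgC F c w H r N') (fun ω => (cR F A x' ω, F.W ω)) ≤
        e * J) := by
  obtain ⟨d, hd, hde⟩ : ∃ d : ℝ, 0 < d ∧ N' - N + 2 * d = e := ⟨(e - (N' - N)) / 2, by linarith,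
    by ring⟩
  obtain ⟨e₁, he₁, H1⟩ := hx_one L hw hx hx' hbw hwx hxx hxo hx1 hp h1 h2 D hd
  obtain ⟨J₁, hJ₁⟩ := exists_nat_ge (Real.log 7 / d)
  refine ⟨e₁, he₁, fun e₂ he₂ => Bas.mono J₁ ((H1 e₂ he₂).and (pos_bas L.pos)) ?_⟩
  rintro J hJ F A ⟨h3, hA⟩ R H hR hH
  have h4 := h3 R H hR hH
  have hcl := isLaw_cond F.isLaw hA
  have hJ0 : (0 : ℝ) ≤ J := Nat.cast_nonneg J
  have hJ' : (J₁ : ℝ) ≤ J := by exact_mod_cast hJ
  have hl : Real.log 7 ≤ d * J := by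
    have := hJ₁.trans hJ'
    rw [div_le_iff₀ hd] at this
    linarith
  have hE : (1 : ℝ) ≤ 2 ^ ((N' - N) * J) :=
    Real.one_le_rpow (by norm_num) (mul_nonneg (by linarith) hJ0)
  obtain ⟨P0, hP0⟩ : ∃ P0 : F.Ω → ℝ, P0 = fun ω => ojet F (c r) 0 (H (slam F ⌊w * J⌋₊ ω) r) ω :=
    ⟨_, rfl⟩
  have s2 := Pool.AJX.ch_fine hcl (fun ω => (2 : ℝ) ^ (N' * J) * P0 ω)
    (fun ω => (cR F A x' ω, F.W ω)) hE
  have e1 : ∀ ω, (2 : ℝ) ^ (N' * J) * P0 ω / 2 ^ ((N' - N) * J) = 2 ^ (N * J) * P0 ω := by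
    intro ω
    rw [div_eq_iff (by positivity), mul_right_comm, ← Real.rpow_add (by norm_num)]
    congr 2
    ring
  have e2 : (fun ω => ⌊(2 : ℝ) ^ (N' * J) * P0 ω⌋) = hgC F c w H r N' := by
    rw [hP0]
    rfl
  have e3 : (fun ω => ⌊(2 : ℝ) ^ (N' * J) * P0 ω / 2 ^ ((N' - N) * J)⌋) = hgC F c w H r N := by
    funext ω
    rw [e1, hP0]
    rfl
  rw [e2, e3, Real.log_rpow (by norm_num)] at s2
  have hl2 : Real.log 2 ≤ 1 := by
    have := Real.log_two_lt_d9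
    linarith
  have h6 : (N' - N) * J * Real.log 2 ≤ (N' - N) * J * 1 :=
    mul_le_mul_of_nonneg_left hl2 (mul_nonneg (by linarith) hJ0)
  have h7 : e * J = (N' - N) * J * 1 + 2 * (d * J) := by
    rw [← hde]
    ring
  linarith

end Pool.NA36
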